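import Pool.Agent.K9h70.PZ.Stm

/-!
# The inequality `t2 + t3 ≥ k + ∑_{r ≥ 5} (2 r - 9) t_r` for pseudoline arrangements: the induction
-/

set_option autoImplicit false
set_option maxHeartbeats 1000000

open scoped Classical

namespace K9h70.PZ

open K9h61.PL K9h61.PL.LeafH Finset

/-- change of `phi3` when a line through the point is deleted -/
def psi3 (b : ℕ) : ℤ :=
  if b = 2 then 1 else if b = 4 then -1 else if b = 5 then -1 else if 6 ≤ b then -2 else 0

theorem phi3_sub (b : ℕ) (hb : 1 ≤ b) : phi3 b - phi3 (b - 1) = psi3 b := by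
  obtain ⟨c, rfl⟩ : ∃ c, b = c + 1 := ⟨b - 1, by omega⟩
  have h : c + 1 - 1 = c := by omega
  rw [h]
  unfold phi3 psi3
  split_ifs <;> omega

theorem psi3_ge (b : ℕ) : -2 ≤ psi3 b := by
  unfold psi3
  split_ifs <;> omega

section count

variable {V : Type} [Fintype V] [LinearOrder V]

theorem Phi3_del (A : Arr V) (l : V) :
    ∑ i ∈ range A.N, phi3 (A.B i).card - ∑ i ∈ range (del A l).N, phi3 ((del A l).B i).card =
      ∑ i ∈ range A.N, (if l ∈ A.B i then psi3 (A.B i).card else 0) := by
  show ∑ i ∈ range A.N, phi3 (A.B i).card - ∑ i ∈ range A.N, phi3 ((del A l).B i).card = _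
  rw [← sum_sub_distrib]
  refine sum_congr rfl fun i _ => ?_
  rw [card_del]
  split_ifs with hl
  · exact phi3_sub _ (card_pos.2 ⟨l, hl⟩)
  · simp

theorem sum_psi3 (A : Arr V) (P : Finset V) :
    ∑ l ∈ P, ∑ i ∈ range A.N, (if l ∈ A.B i then psi3 (A.B i).card else 0) =
      ∑ i ∈ range A.N, ((A.B i ∩ P).card : ℤ) * psi3 (A.B i).card := by
  rw [sum_comm]
  refine sum_congr rfl fun i _ => ?_
  rw [← sum_filter, sum_const, nsmul_eq_mul]
  congr 3
  ext x
  simp only [mem_filter, mem_inter]
  tauto

end count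

/-- local contribution for the count of the pairs (line of `P`, other line) -/
def gg (b : ℕ) : ℤ := if b = 3 then 2 else if b = 4 then 4 else if 5 ≤ b then (b : ℤ) + 1 else 0

theorem loc_a3 (c y : ℕ) (hc : c ≤ 1) :
    (c : ℤ) * y - c * psi3 (c + y) ≤ gg (c + y) := by
  interval_cases c
  · simp only [Nat.cast_zero, zero_mul, sub_zero, zero_add]
    unfold gg
    split_ifs <;> positivity
  · unfold psi3 gg
    push_cast
    split_ifs <;> omega

theorem loc_c3 (c y : ℕ) (hc : c ≤ 1) :
    2 * ((c : ℤ) * y) - (y : ℤ) * ((y : ℤ) - 1) ≤ 2 * phi3 (c + y) := by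
  rcases Nat.lt_or_ge y 5 with h | h
  · unfold phi3
    interval_cases c <;> interval_cases y <;> norm_num
  · have h5 : (5 : ℤ) ≤ y := by exact_mod_cast h
    have e : phi3 (c + y) = 9 - 2 * ((c : ℤ) + y) := by
      unfold phi3
      rw [if_neg (by omega), if_neg (by omega), if_neg (by omega)]
      push_cast
      ring
    rw [e]
    interval_cases c
    · push_cast
      nlinarith
    · push_cast
      nlinarith

theorem main3 (hM : S_M) (hM3 : S_M3) (hE : S_E2) (hN : S_NUM) : ∀ (k : ℕ) (V : Type) [Fintype V]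
    [LinearOrder V] (A : Arr V), Fintype.card V = k → 2 ≤ k → (∀ i < A.N, (A.B i).card + 3 ≤ k) →
    (k : ℤ) ≤ ∑ i ∈ range A.N, phi3 (A.B i).card := by
  intro k
  induction k with
  | zero => intro V _ _ A _ h
            omega
  | succ k ih =>
    intro V _ _ A hk hk2 hB
    -- a point
    obtain ⟨x0, y0, hxy0⟩ : ∃ x y : V, x ≠ y := Fintype.exists_pair_of_one_lt_card (by omega)
    obtain ⟨i0, hi0, hx0, hy0⟩ := A.cross x0 y0 hxy0
    have hb0 : 2 ≤ (A.B i0).card := by
      have : ({x0, y0} : Finset V) ⊆ A.B i0 := by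
        intro z hz
        rw [mem_insert, mem_singleton] at hz
        rcases hz with rfl | rfl <;> assumption
      have h2 := card_le_card this
      rwa [card_pair hxy0] at h2
    have hk5 : 5 ≤ k + 1 := by
      have := hB i0 hi0
      omega
    -- the data of a point `P`
    have data : ∀ p < A.N, ∀ i < A.N, i ≠ p → (A.B i ∩ A.B p).card ≤ 1 := by
      intro p hp i hi hip
      rw [card_le_one]
      intro a ha b hb
      by_contra hab
      rw [mem_inter] at ha hb
      exact hip (A.uniq a b hab i hi p hp ha.1 hb.1 ha.2 hb.2)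
    have hsplit : ∀ p i, (A.B i).card = (A.B i ∩ A.B p).card + (A.B i ∩ (univ \ A.B p)).card := by
      intro p i
      rw [← card_union_of_disjoint]
      · congr 1
        ext x
        simp only [mem_union, mem_inter, mem_sdiff, mem_univ, true_and]
        tauto
      · rw [disjoint_left]
        intro x hx hx2
        rw [mem_inter] at hx hx2
        exact (mem_sdiff.1 hx2.2).2 hx.2
    have hYc : ∀ p, ((univ \ A.B p).card : ℤ) = (k + 1 : ℤ) - (A.B p).card := by
      intro p
      have h1 : (univ \ A.B p).card + (A.B p).card = (univ : Finset V).card :=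
        card_sdiff_add_card_eq_card (subset_univ _)
      rw [card_univ, hk] at h1
      have h2 : (((univ \ A.B p).card + (A.B p).card : ℕ) : ℤ) = ((k + 1 : ℕ) : ℤ) := by rw [h1]
      push_cast at h2
      linarith
    have hYp : ∀ p, (A.B p ∩ (univ \ A.B p)).card = 0 := by
      intro p
      rw [card_eq_zero]
      ext x
      simp only [mem_inter, mem_sdiff, mem_univ, true_and]
      tauto
    have hdis : ∀ p, Disjoint (A.B p) (univ \ A.B p) := fun p => disjoint_sdiff
    by_contra hcon
    have hcon' : ∑ i ∈ range A.N, phi3 (A.B i).card ≤ (k : ℤ) := by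
      push_cast at hcon
      linarith
    -- the numbers
    have m1 := (hM V A (by omega)).1 (fun i hi => by have := hB i hi; omega)
    have m2 := hM3 V A (by omega) (fun i hi => by have := hB i hi; omega)
    obtain ⟨T2, hT2⟩ : ∃ x : ℤ, x = ∑ i ∈ range A.N, (if (A.B i).card = 2 then (1 : ℤ) else 0) :=
      ⟨_, rfl⟩
    obtain ⟨T3, hT3⟩ : ∃ x : ℤ, x = ∑ i ∈ range A.N, (if (A.B i).card = 3 then (1 : ℤ) else 0) :=
      ⟨_, rfl⟩
    obtain ⟨T4, hT4⟩ : ∃ x : ℤ, x = ∑ i ∈ range A.N, (if (A.B i).card = 4 then (1 : ℤ) else 0) :=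
      ⟨_, rfl⟩
    have hT40 : 0 ≤ T4 := by
      rw [hT4]; exact sum_nonneg fun i _ => by split_ifs <;> norm_num
    have hT0 : 0 ≤ TT A := sum_nonneg fun i _ => by split_ifs <;> norm_num
    have hS0 : 0 ≤ SS A := sum_nonneg fun i _ => by split_ifs <;> omega
    have hPhi : ∑ i ∈ range A.N, phi3 (A.B i).card = T2 + T3 + 7 * TT A - 2 * SS A := by
      unfold TT SS
      rw [hT2, hT3, mul_sum, mul_sum, ← sum_add_distrib, ← sum_add_distrib, ← sum_sub_distrib]
      refine sum_congr rfl fun i _ => ?_
      unfold phi3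
      split_ifs <;> omega
    have q0 : (A.f0 : ℤ) = T2 + T3 + T4 + TT A := by
      unfold TT
      rw [hT2, hT3, hT4, F0_eq, ← sum_add_distrib, ← sum_add_distrib, ← sum_add_distrib]
      refine sum_congr rfl fun i _ => ?_
      split_ifs <;> omega
    have q1 : (A.f1 : ℤ) = 2 * T2 + 3 * T3 + 4 * T4 + SS A + TT A := by
      unfold TT SS
      rw [hT2, hT3, hT4, F1_eq, mul_sum, mul_sum, mul_sum, ← sum_add_distrib, ← sum_add_distrib,
        ← sum_add_distrib, ← sum_add_distrib]
      refine sum_congr rfl fun i _ => ?_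
      split_ifs <;> omega
    have q2 : (A.t2 : ℤ) = T2 := by rw [hT2, T2_eq]
    have m1' : (A.f1 : ℤ) + 3 ≤ 3 * A.f0 := by exact_mod_cast m1
    have m2' : 2 * (A.t2 : ℤ) + 2 * A.f1 + 7 ≤ 7 * A.f0 := by exact_mod_cast m2
    rw [q0, q1] at m1'
    rw [q0, q1, q2] at m2'
    rw [hPhi] at hcon'
    -- a point of maximal multiplicity
    obtain ⟨p, hp', hmax⟩ := exists_max_image (range A.N) (fun i => (A.B i).card)
      ⟨i0, mem_range.2 hi0⟩
    have hp := mem_range.1 hp'
    have e5 := pairs_off A univ
    have lp : ∑ i ∈ range A.N, ((A.B i ∩ univ).card : ℤ) * (((A.B i ∩ univ).card : ℤ) - 1) ≤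
        2 * T2 + 6 * T3 + 12 * T4 + ((A.B p).card : ℤ) * SS A := by
      unfold SS
      rw [hT2, hT3, hT4, mul_sum, mul_sum, mul_sum, mul_sum, ← sum_add_distrib, ← sum_add_distrib,
        ← sum_add_distrib]
      refine sum_le_sum fun i hi => ?_
      rw [inter_univ]
      have hm : (A.B i).card ≤ (A.B p).card := hmax i hi
      generalize (A.B i).card = b at hm
      generalize (A.B p).card = R at hm
      rcases Nat.lt_or_ge b 5 with h | h
      · interval_cases b <;> norm_num
      · have g2 : ¬ b = 2 := by omega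
        have g3 : ¬ b = 3 := by omega
        have g4 : ¬ b = 4 := by omega
        rw [if_neg g2, if_neg g3, if_neg g4, if_pos h]
        have h5 : (5 : ℤ) ≤ b := by exact_mod_cast h
        have hR : (b : ℤ) ≤ R := by exact_mod_cast hm
        have h6 : (b : ℤ) * ((b : ℤ) - 1) ≤ (R : ℤ) * ((b : ℤ) - 1) :=
          mul_le_mul_of_nonneg_right hR (by linarith)
        simp only [mul_zero, zero_add, add_zero]
        exact h6
    rw [e5, card_univ, hk] at lp
    push_cast at lp
    by_cases hp5 : 5 ≤ (A.B p).card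
    · -- a point of multiplicity at least 5
      obtain ⟨Y, hY⟩ : ∃ Y, Y = univ \ A.B p := ⟨_, rfl⟩
      have e1 := pairs_prod A (A.B p) Y (by rw [hY]; exact hdis p)
      have e2 := pairs_off A Y
      have hz : (A.B p ∩ Y).card = 0 := by rw [hY]; exact hYp p
      rw [← add_sum_erase _ _ hp'] at e1 e2
      rw [hz] at e1 e2
      simp only [Nat.cast_zero, mul_zero, zero_mul, zero_add] at e1 e2
      have hsY : (Y.card : ℤ) = (k + 1 : ℤ) - (A.B p).card := by rw [hY]; exact hYc p
      have hR5 : (5 : ℤ) ≤ (A.B p).card := by exact_mod_cast hp5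
      have hs3 : (3 : ℤ) ≤ Y.card := by
        have h1 := hB p hp
        have h2 : (((A.B p).card + 3 : ℕ) : ℤ) ≤ ((k + 1 : ℕ) : ℤ) := by exact_mod_cast h1
        push_cast at h2
        linarith
      -- direct count
      have dc : 2 * ((A.B p).card : ℤ) * Y.card - (Y.card : ℤ) * ((Y.card : ℤ) - 1) ≤
          2 * ∑ i ∈ (range A.N).erase p, phi3 (A.B i).card := by
        have h5 : ∑ i ∈ (range A.N).erase p, (2 * (((A.B i ∩ A.B p).card : ℤ) * (A.B i ∩ Y).card) -
          ((A.B i ∩ Y).card : ℤ) * (((A.B i ∩ Y).card : ℤ) - 1)) ≤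
          ∑ i ∈ (range A.N).erase p, 2 * phi3 (A.B i).card := by
          refine sum_le_sum fun i hi => ?_
          obtain ⟨h6, h7⟩ := mem_erase.1 hi
          rw [hsplit p i, ← hY]
          exact loc_c3 _ _ (data p hp i (mem_range.1 h7) h6)
        rw [sum_sub_distrib, ← mul_sum, ← mul_sum, e1, e2] at h5
        linarith
      have hphip : phi3 (A.B p).card = 9 - 2 * ((A.B p).card : ℤ) := by
        unfold phi3
        rw [if_neg (by omega), if_neg (by omega), if_neg (by omega)]
      have hsum : ∑ i ∈ range A.N, phi3 (A.B i).card =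
          phi3 (A.B p).card + ∑ i ∈ (range A.N).erase p, phi3 (A.B i).card :=
        (add_sum_erase _ _ hp').symm
      obtain ⟨R, hR⟩ : ∃ R : ℤ, R = ((A.B p).card : ℤ) := ⟨_, rfl⟩
      obtain ⟨s, hs⟩ : ∃ s : ℤ, s = (Y.card : ℤ) := ⟨_, rfl⟩
      rw [← hR] at dc hphip hR5 hsY e1 lp
      rw [← hs] at dc hs3 hsY e1
      have h3R : 3 * R ≤ k + 4 := by
        by_contra h
        have h' : k + 5 ≤ 3 * R := by linarith [not_le.1 h]
        have h6 : s + 4 ≤ 2 * R := by linarith
        have h7 : (s + 4) * (s - 3) ≤ 2 * R * (s - 3) :=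
          mul_le_mul_of_nonneg_right h6 (by linarith)
        rw [hPhi] at hsum
        rw [hphip] at hsum
        nlinarith
      -- deletion
      have hB4 : ∀ i < A.N, (A.B i).card + 4 ≤ k + 1 := by
        intro i hi
        have h1 : (A.B i).card ≤ (A.B p).card := hmax i (mem_range.2 hi)
        have h2 : ((A.B i).card : ℤ) ≤ R := by rw [hR]; exact_mod_cast h1
        have h3 : (((A.B i).card + 4 : ℕ) : ℤ) ≤ ((k + 1 : ℕ) : ℤ) := by
          push_cast
          linarith
        exact_mod_cast h3
      have hcard : ∀ l : V, Fintype.card {x : V // x ≠ l} = k := by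
        intro l
        have h1 : Fintype.card {x : V // x ≠ l} = Fintype.card V - 1 := by
          simp [Fintype.card_subtype_compl]
        rw [h1, hk]
        omega
      have h1 : ∀ l : V, ∑ i ∈ range A.N, (if l ∈ A.B i then psi3 (A.B i).card else 0) ≤ 0 := by
        intro l
        rw [← Phi3_del]
        have h2 := ih {x : V // x ≠ l} (del A l) (hcard l) (by omega) (by
          intro i hi
          have h3 := hB4 i hi
          have h4 := card_del A l i
          have h5 : ((del A l).B i).card ≤ (A.B i).card := by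
            rw [h4]
            exact Nat.sub_le _ _
          omega)
        rw [hPhi]
        linarith
      have h1P : ∀ P : Finset V,
          ∑ i ∈ range A.N, ((A.B i ∩ P).card : ℤ) * psi3 (A.B i).card ≤ 0 := by
        intro P
        rw [← sum_psi3]
        exact sum_nonpos fun l _ => h1 l
      have e3 := h1P (A.B p)
      rw [← add_sum_erase _ _ hp', inter_self, ← hR] at e3
      have e3' : -2 * R ≤ R * psi3 (A.B p).card := by
        have h := mul_le_mul_of_nonneg_left (psi3_ge (A.B p).card)
          (show (0 : ℤ) ≤ R by linarith)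
        linarith
      have la : ∑ i ∈ (range A.N).erase p, (((A.B i ∩ A.B p).card : ℤ) * (A.B i ∩ Y).card -
          ((A.B i ∩ A.B p).card : ℤ) * psi3 (A.B i).card) ≤
          ∑ i ∈ (range A.N).erase p, gg (A.B i).card := by
        refine sum_le_sum fun i hi => ?_
        obtain ⟨h6, h7⟩ := mem_erase.1 hi
        have := loc_a3 _ (A.B i ∩ Y).card (data p hp i (mem_range.1 h7) h6)
        rw [hY, ← hsplit p i, ← hY] at this
        exact this
      rw [sum_sub_distrib, e1] at la
      have lt : ∑ i ∈ range A.N, gg (A.B i).card = 2 * T3 + 4 * T4 + SS A + 2 * TT A := by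
        unfold SS TT
        rw [hT3, hT4, mul_sum, mul_sum, mul_sum, ← sum_add_distrib, ← sum_add_distrib,
          ← sum_add_distrib]
        refine sum_congr rfl fun i _ => ?_
        unfold gg
        split_ifs <;> omega
      have hggp : gg (A.B p).card = R + 1 := by
        unfold gg
        rw [if_neg (by omega), if_neg (by omega), if_pos hp5, hR]
      rw [← add_sum_erase _ _ hp', hggp] at lt
      have hST : SS A ≤ TT A * (R - 1) := by
        unfold SS TT
        rw [sum_mul]
        refine sum_le_sum fun i hi => ?_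
        have h1 : (A.B i).card ≤ (A.B p).card := hmax i hi
        have h2 : ((A.B i).card : ℤ) ≤ R := by rw [hR]; exact_mod_cast h1
        split_ifs <;> linarith
      have hE' := hE V A
      rw [hk] at hE'
      push_cast at hE'
      generalize TT A = T at *
      generalize SS A = S at *
      have hse : s = (k : ℤ) + 1 - R := hsY
      rw [hse] at la
      clear dc hcon hB hmax data hsplit hYc hYp hdis h1P h1 hcard hB4 ih e2 e5 hsum hPhi q0 q1 q2
      have la' : R * ((k : ℤ) + 1 - R - 1) + 1 ≤ 2 * T3 + 4 * T4 + S + 2 * T := by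
        have e9 : R * ((k : ℤ) + 1 - R - 1) = R * ((k : ℤ) + 1 - R) - R := by ring
        rw [e9]
        linarith
      have lp' : ((k : ℤ) + 1) ^ 2 ≤ (k : ℤ) + 1 + (2 * T2 + 6 * T3 + 12 * T4 + R * S) := by
        have e9 : ((k : ℤ) + 1) ^ 2 = (k : ℤ) + 1 + ((k : ℤ) + 1) * ((k : ℤ) + 1 - 1) := by ring
        rw [e9]
        linarith
      refine hN ((k : ℤ) + 1) R S T hR5 (by linarith) hT0 (by linarith) hS0 hST ?_ ?_ ?_
      · have e9 : (R + 8) * S = R * S + 8 * S := by ring
        rw [e9]
        linarith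
      · linarith
      · intro c
        exact hE' c
    · -- all multiplicities at most 4
      have hT : TT A = 0 := by
        unfold TT
        refine sum_eq_zero fun i hi => ?_
        have h1 : (A.B i).card ≤ (A.B p).card := hmax i hi
        rw [if_neg (by omega)]
      have hS : SS A = 0 := by
        unfold SS
        refine sum_eq_zero fun i hi => ?_
        have h1 : (A.B i).card ≤ (A.B p).card := hmax i hi
        rw [if_neg (by omega)]
      rw [hT, hS] at m1' m2' hcon'
      rw [hS] at lp
      have e9 : ((k : ℤ) + 1) * ((k : ℤ) + 1 - 1) = (k : ℤ) ^ 2 + k := by ring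
      rw [e9] at lp
      have e10 : (2 * (k : ℤ) - 13) ^ 2 = 4 * (k : ℤ) ^ 2 - 52 * k + 169 := by ring
      have e11 := sq_nonneg (2 * (k : ℤ) - 13)
      rw [e10] at e11
      linarith

theorem t_H3 (hM : S_M) (hM3 : S_M3) (hE : S_E2) (hN : S_NUM) : S_H3 := by
  intro V _ _ A hV hB
  exact main3 hM hM3 hE hN (Fintype.card V) V A rfl hV hB

end K9h70.PZ
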