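import Pool.Agent.K9h61.PL.H2

/-!
# Hirzebruch's inequality `t2 + t3 ≥ k + ∑_{r ≥ 5} (2 r - 9) t_r` for pseudolines: interfaces

`Arr V` (wiring diagrams) is from `Pool/Agent/K9h61/PL/Stm.lean`.
-/

set_option autoImplicit false

open scoped Classical

namespace K9h70.PZ

open K9h61.PL Finset

/-- LEAF M3 (discharging; copy `Map2.lean`'s `face2`/`third` with the weight
`ww e = db e + dd e * (qq (al e) - qq e)`: at most `1` on a triangle, `6` on a quadrangle,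
`2 n` on an `n`-gon, i.e. at most `5 n - 14`; so `#dbl + 14 #faces ≤ 5 #darts`; then copy `t_C2`
and `t_B2`) -/
def S_M3 : Prop := ∀ (V : Type) [Fintype V] [LinearOrder V] (A : Arr V), 2 ≤ Fintype.card V →
  (∀ i < A.N, (A.B i).card + 3 ≤ Fintype.card V) → 2 * A.t2 + 2 * A.f1 + 7 ≤ 7 * A.f0

/-- number of points of multiplicity at least 5 -/
noncomputable def TT {V : Type} [Fintype V] [LinearOrder V] (A : Arr V) : ℤ :=
  ∑ i ∈ range A.N, (if 5 ≤ (A.B i).card then (1 : ℤ) else 0)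

/-- `∑ (r - 1)` over the points of multiplicity at least 5 -/
noncomputable def SS {V : Type} [Fintype V] [LinearOrder V] (A : Arr V) : ℤ :=
  ∑ i ∈ range A.N, (if 5 ≤ (A.B i).card then ((A.B i).card : ℤ) - 1 else 0)

/-- LEAF E2: let `a(l)` be the number of points of multiplicity `≥ 5` on `l`; sum
`(a(l) - c) (a(l) - c - 1) ≥ 0` over all `l`; `∑ a(l) = SS + TT`, and
`∑ a(l) (a(l) - 1) ≤ TT (TT - 1)` as two distinct points are on at most one common line (`uniq`) -/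
def S_E2 : Prop := ∀ (V : Type) [Fintype V] [LinearOrder V] (A : Arr V) (c : ℤ),
  2 * c * (SS A + TT A) ≤ c * (c + 1) * (Fintype.card V : ℤ) + TT A * (TT A - 1)

/-- LEAF NUM -/
def S_NUM : Prop := ∀ (k R S T : ℤ), 5 ≤ R → 3 * R ≤ k + 3 → 0 ≤ T → 2 * T + 8 ≤ k → 0 ≤ S →
  S ≤ T * (R - 1) → k ^ 2 + 82 + 50 * T ≤ 15 * k + (R + 8) * S →
  R * (k - R - 1) + 25 + 12 * T ≤ 3 * S + 4 * k →
  (∀ c : ℤ, 2 * c * (S + T) ≤ c * (c + 1) * k + T * (T - 1)) → False

/-!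
### Sketch for NUM
* `k ≤ 48`: use `c = 1, 2, 3` and `S ≤ T (R - 1)`; finite check (`12 ≤ k ≤ 48`, `5 ≤ R ≤ 17`,
  `0 ≤ T ≤ 20`; `S` is at most the minimum of the 4 bounds; both displayed inequalities with this
  maximal `S` are never true together): checked by computer.
* `k ≥ 49`: let `q = √k ≥ 7` (real).
  (a) `S ≤ k + (q - 2) T`: otherwise `I = S + T > k + (q - 1) T`; with `c = ⌊I / k⌋`:
  `I² ≤ k (I + T (T - 1))` (write `I = c k + ρ`, `0 ≤ ρ < k`), but `I (I - k) > (k + (q-1) T)(q-1) T`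
  `≥ k T (T - 1)` as `q³ ≥ (2 q - 1) T` (`2 T ≤ q²`).
  (b) `(R + 8)(q - 2) ≥ 50`: otherwise the first inequality gives `k² + 82 ≤ (R + 23) k`,
  `R ≥ k - 23`, against `3 R ≤ k + 3`.
  (c) both inequalities are linear in `T` and get weaker when `T` grows to `(k - 8)/2`:
  (I1) `(R + 8)(q³ - 8 q + 16) ≥ 2 (q⁴ + 10 q² - 118)`,
  (II1) `R (q² - R - 1) ≤ 3/2 q³ - 2 q² - 12 q + 47`.
  (d) (I1) gives `R ≥ R0 := 2 q - 8 + 30/q` (because `-6 q² + 32 q - 4 + 480/q ≤ 0` for `q ≥ 7`), and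
  `R (q² - R - 1)` is increasing up to `(q² - 1)/2 ≥ R`, so it is at least its value at `R0`, which
  exceeds the right side of (II1) by `q³/2 - 10 q² + 72 q - 223 + 450/q - 900/q² > 0` for `q ≥ 7`.
-/

/-- contribution of a point of multiplicity `b` to `t2 + t3 - ∑_{r ≥ 5} (2 r - 9) t_r` -/
def phi3 (b : ℕ) : ℤ := if b < 2 then 0 else if b ≤ 3 then 1 else if b = 4 then 0 else 9 - 2 * (b : ℤ)

/-- the main inequality: `t2 + t3 ≥ k + ∑_{r ≥ 5} (2 r - 9) t_r` -/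
def S_H3 : Prop := ∀ (V : Type) [Fintype V] [LinearOrder V] (A : Arr V), 2 ≤ Fintype.card V →
  (∀ i < A.N, (A.B i).card + 3 ≤ Fintype.card V) →
  (Fintype.card V : ℤ) ≤ ∑ i ∈ range A.N, phi3 (A.B i).card

end K9h70.PZ
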