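import Pool.Agent.K9h61.PL.Map2
import Pool.Agent.K9h61.PL.Lab2
import Pool.Agent.K9h61.PL.Bridge
import Pool.Agent.K9h70.PZ.Stm

/-! LEAF M3 (helper6, for helper70; the proof is that of `Map2.lean`, with another weight). -/

set_option autoImplicit false

open scoped Classical

namespace K9h70.PZ

open K9h61.PL K9h61.PL.MapLeaf

namespace M3_

variable {D V P Λ : Type} (M : CMap D V P Λ)

variable [Fintype D]

/-- weight -/
noncomputable def ww3 (e : D) : ℤ := db M e + dd M e * (qq M (M.al e) - qq M e)

lemma sum_ww3 : ∑ e, ww3 M e = ∑ e, db M e := by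
  have hal : Function.Involutive M.al := M.al_al
  have h2 : ∀ e, dd M (M.al e) = dd M e := by
    intro e
    unfold dd
    rw [M.al_al]
    simp only [and_comm]
  have h1 : ∑ e, dd M e * qq M (M.al e) = ∑ e, dd M e * qq M e := by
    have := (Equiv.sum_comp (hal.toPerm M.al) (fun e => dd M e * qq M e)).symm
    rw [this]
    apply Finset.sum_congr rfl
    intro e _
    show _ = dd M (M.al e) * qq M (M.al e)
    rw [h2]
  have h3 : ∑ e, ww3 M e = ∑ e, db M e + (∑ e, dd M e * qq M (M.al e) -
      ∑ e, dd M e * qq M e) := by
    rw [← Finset.sum_sub_distrib, ← Finset.sum_add_distrib]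
    apply Finset.sum_congr rfl
    intro e _
    unfold ww3
    ring
  rw [h3, h1]
  ring

lemma face3 (hM : ∀ e, M.dbl e → M.pt (M.al e) ≠ M.pt (M.al (M.opp e)))
    (hI : Function.Injective M.rho)
    (hK3 : ∀ g, M.dbl g → M.dbl (M.al (M.opp g)) →
      M.pt (M.al g) ≠ M.pt (M.al (M.opp (M.al (M.opp g)))))
    (l : Λ) (hl : l ∈ Finset.univ.image M.lab) :
    ∑ e ∈ fib M l, ww3 M e ≤ 5 * ((fib M l).card : ℤ) - 14 := by
  simp only [Finset.mem_image, Finset.mem_univ, true_and] at hl
  obtain ⟨e, rfl⟩ := hl
  have hge := fib_ge M e
  rcases Nat.lt_or_ge 4 (fib M (M.lab e)).card with h5 | h5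
  · have h6 : ∑ x ∈ fib M (M.lab e), ww3 M x ≤ ∑ x ∈ fib M (M.lab e), (2 : ℤ) := by
      apply Finset.sum_le_sum
      intro x _
      have a : db M x ≤ 1 := by unfold db; split_ifs <;> norm_num
      have b : dd M x * (qq M (M.al x) - qq M x) ≤ 1 := by
        unfold dd qq; split_ifs <;> norm_num
      unfold ww3
      linarith
    rw [Finset.sum_const, nsmul_eq_mul] at h6
    have h7 : (5 : ℤ) ≤ ((fib M (M.lab e)).card : ℤ) := by exact_mod_cast h5
    linarith
  · rcases Nat.lt_or_ge 3 (fib M (M.lab e)).card with h4 | h4
    · -- quadrangles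
      have h4' : (fib M (M.lab e)).card = 4 := by omega
      obtain ⟨hF, hc, h3⟩ := four M hI e h4'
      have hall : ∀ x ∈ fib M (M.lab e), ww3 M x = db M x + dd M x * qq M (M.al x) := by
        intro x hx
        rw [mem_fib] at hx
        have : qq M x = 0 := by
          unfold qq; rw [hx, if_neg (by omega)]
        unfold ww3
        rw [this]; ring
      have pairs : ∀ x : D, phi M (phi M (phi M (phi M x))) = x →
          dd M x * qq M (M.al x) +
            dd M (phi M (phi M x)) * qq M (M.al (phi M (phi M x))) ≤ 1 := by
        intro x hx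
        by_contra hcon
        push_neg at hcon
        have b1 : dd M x = 1 ∧ qq M (M.al x) = 1 := by
          unfold dd qq at hcon ⊢
          split_ifs at hcon ⊢ <;> simp_all
        have b2 : dd M (phi M (phi M x)) = 1 ∧ qq M (M.al (phi M (phi M x))) = 1 := by
          unfold dd qq at hcon ⊢
          split_ifs at hcon ⊢ <;> simp_all
        have c1 : M.dbl x ∧ M.dbl (M.al x) := by
          by_contra hh
          have := b1.1
          unfold dd at this
          rw [if_neg hh] at this
          exact absurd this (by norm_num)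
        have c2 : M.dbl (phi M (phi M x)) ∧ M.dbl (M.al (phi M (phi M x))) := by
          by_contra hh
          have := b2.1
          unfold dd at this
          rw [if_neg hh] at this
          exact absurd this (by norm_num)
        have g1 : (fib M (M.lab (M.al x))).card = 3 := by
          by_contra hh
          have := b1.2
          unfold qq at this
          rw [if_neg hh] at this
          exact absurd this (by norm_num)
        have g2 : (fib M (M.lab (M.al (phi M (phi M x))))).card = 3 := by
          by_contra hh
          have := b2.2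
          unfold qq at this
          rw [if_neg hh] at this
          exact absurd this (by norm_num)
        exact quad M hK3 x hx c1.1 c1.2 c2.1 c2.2 (cyc M _ g1) (cyc M _ g2)
      have s1 := pairs e hc
      have s2 := pairs (phi M e) (by rw [hc])
      have v : ∀ x, db M x ≤ 1 := by
        intro x; unfold db; split_ifs <;> norm_num
      rw [Finset.sum_congr rfl hall, h4', hF]
      rw [Finset.sum_insert, Finset.sum_insert, Finset.sum_insert, Finset.sum_singleton]
      · have := v e
        have := v (phi M e)
        have := v (phi M (phi M e))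
        have := v (phi M (phi M (phi M e)))
        push_cast
        linarith
      · rw [Finset.mem_singleton]; exact (phi_ne M _).symm
      · simp only [Finset.mem_insert, Finset.mem_singleton, not_or]
        exact ⟨(phi_ne M _).symm, (phi_phi_ne M _).symm⟩
      · simp only [Finset.mem_insert, Finset.mem_singleton, not_or]
        exact ⟨(phi_ne M e).symm, (phi_phi_ne M e).symm, h3.symm⟩
    · -- triangles
      have h : (fib M (M.lab e)).card = 3 := by omega
      rw [h]
      have hs : ∀ x ∈ fib M (M.lab e), ww3 M x = db M x - db M x * db M (phi M x) := by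
        intro x hx
        rw [mem_fib] at hx
        have h1 : qq M x = 1 := by unfold qq; rw [hx, if_pos h]
        have h2 : dd M x = db M x * db M (phi M x) := by
          unfold dd db phi
          have h3 : M.dbl (M.rho (M.al x)) ↔ M.dbl (M.al x) := M.dbl_rho _
          by_cases a : M.dbl x <;> by_cases b : M.dbl (M.al x) <;> simp [a, b, h3]
        have h3 : dd M x * qq M (M.al x) = 0 := by
          by_cases hd : M.dbl x ∧ M.dbl (M.al x)
          · have : ¬ (fib M (M.lab (M.al x))).card = 3 := by
              intro b
              exact key M hM x hd.1 hd.2 (cyc M x (by rw [hx]; exact h)) (cyc M _ b)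
            unfold qq
            rw [if_neg this, mul_zero]
          · unfold dd
            rw [if_neg hd, zero_mul]
        unfold ww3
        rw [mul_sub, h3, h1, h2]; ring
      rw [Finset.sum_congr rfl hs, fib_eq M e h]
      rw [Finset.sum_insert, Finset.sum_insert, Finset.sum_singleton, cyc M e h]
      · rcases db01 M e with a | a <;> rcases db01 M (phi M e) with b | b <;>
          rcases db01 M (phi M (phi M e)) with d | d <;> rw [a, b, d] <;> norm_num
      · rw [Finset.mem_singleton]; exact (phi_ne M _).symm
      · simp only [Finset.mem_insert, Finset.mem_singleton, not_or]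
        exact ⟨(phi_ne M e).symm, (phi_phi_ne M e).symm⟩

theorem third3 (hM : ∀ e, M.dbl e → M.pt (M.al e) ≠ M.pt (M.al (M.opp e)))
    (hI : Function.Injective M.rho)
    (hK3 : ∀ g, M.dbl g → M.dbl (M.al (M.opp g)) →
      M.pt (M.al g) ≠ M.pt (M.al (M.opp (M.al (M.opp g))))) :
    (Finset.univ.filter (fun e => M.dbl e)).card + 14 * (Finset.univ.image M.lab).card ≤
      5 * Fintype.card D := by
  have h1 : ((Finset.univ.filter (fun e => M.dbl e)).card : ℤ) = ∑ e, db M e := by
    unfold db
    rw [Finset.card_filter]
    push_cast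
    rfl
  have h2 : ∑ e, ww3 M e = ∑ l ∈ Finset.univ.image M.lab, ∑ e ∈ fib M l, ww3 M e := by
    unfold fib
    exact (Finset.sum_fiberwise_of_maps_to (fun e _ => Finset.mem_image_of_mem _ (Finset.mem_univ e))
      _).symm
  have h3 : ∑ l ∈ Finset.univ.image M.lab, ∑ e ∈ fib M l, ww3 M e
      ≤ ∑ l ∈ Finset.univ.image M.lab, (5 * ((fib M l).card : ℤ) - 14) :=
    Finset.sum_le_sum (face3 M hM hI hK3)
  have h4 : ∑ l ∈ Finset.univ.image M.lab, (5 * ((fib M l).card : ℤ) - 14)
      = 5 * (Fintype.card D : ℤ) - 14 * ((Finset.univ.image M.lab).card : ℤ) := by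
    rw [Finset.sum_sub_distrib, ← Finset.mul_sum, Finset.sum_const, nsmul_eq_mul]
    have := card_sum M
    have h5 : (Fintype.card D : ℤ) = ∑ l ∈ Finset.univ.image M.lab, ((fib M l).card : ℤ) := by
      rw [this]; push_cast; rfl
    rw [h5]; ring
  have h5 := sum_ww3 M
  have : (((Finset.univ.filter (fun e => M.dbl e)).card +
      14 * (Finset.univ.image M.lab).card : ℕ) : ℤ) ≤ ((5 * Fintype.card D : ℕ) : ℤ) := by
    push_cast
    linarith
  exact_mod_cast this


end M3_

open M3_

/-- cyclic form -/
def S_C3 : Prop := ∀ (V : Type) [Fintype V] (N : ℕ) [NeZero (2 * N)] (A : Cyc V N),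
  2 ≤ Fintype.card V →
  (∀ T, (A.B T).card + 3 ≤ Fintype.card V) →
    2 * (Finset.univ.filter (fun T => (A.B T).card = 2)).card +
      2 * (∑ T ∈ Finset.univ.filter (fun T => 2 ≤ (A.B T).card), (A.B T).card) + 14 ≤
      7 * (Finset.univ.filter (fun T => 2 ≤ (A.B T).card)).card

/-- the third inequality in the cyclic form -/
theorem c3 : S_C3 := by
  intro V _ N _ A hk hp
  have hp2 : ∀ T, (A.B T).card + 2 ≤ Fintype.card V := fun T => by have := hp T; omega
  have hp' : ∀ T, (A.B T).card + 1 ≤ Fintype.card V := fun T => by have := hp T; omega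
  have h1 := third3 (A.cmap hp') (fun e he => A.K2 hp2 e he) A.rho_inj
    (fun g h2 h3 => A.K3 hp g h2 h3)
  have key : ∀ (inst : DecidableEq (ℕ × ZMod (2 * N))),
      ((∑ T ∈ (Finset.univ : Finset (ZMod (2 * N))).filter (fun T => 2 ≤ (A.B T).card),
        ((A.B T).card - 1)) + 2) ≤
        (@Finset.image _ _ inst (A.cmap hp').lab Finset.univ).card := by
    intro inst
    rw [← A.card_allfaces hk]
    apply Finset.card_le_card
    intro p h
    obtain ⟨e, he⟩ := A.allfaces_sub hk h
    rw [Finset.mem_image]
    exact ⟨e, Finset.mem_univ _, he⟩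
  have h2 := key (fun a b => Classical.propDecidable (a = b))
  have hD : Fintype.card A.Dart =
      ∑ T ∈ (Finset.univ : Finset (ZMod (2 * N))).filter (fun T => 2 ≤ (A.B T).card),
        2 * (A.B T).card := by
    have := A.card_dart (fun _ => True)
    simp only [Finset.filter_true, true_and] at this
    rw [← this, Finset.card_univ]
  rw [← Finset.mul_sum] at hD
  have hsum : (∑ T ∈ (Finset.univ : Finset (ZMod (2 * N))).filter (fun T => 2 ≤ (A.B T).card),
        ((A.B T).card - 1)) +
      ((Finset.univ : Finset (ZMod (2 * N))).filter (fun T => 2 ≤ (A.B T).card)).card =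
      ∑ T ∈ (Finset.univ : Finset (ZMod (2 * N))).filter (fun T => 2 ≤ (A.B T).card),
        (A.B T).card := by
    rw [Finset.card_eq_sum_ones, ← Finset.sum_add_distrib]
    apply Finset.sum_congr rfl
    intro T hT
    rw [Finset.mem_filter] at hT
    omega
  have h6 : (Finset.univ.filter (fun e => (A.cmap hp').dbl e)).card =
      4 * ((Finset.univ : Finset (ZMod (2 * N))).filter (fun T => (A.B T).card = 2)).card := by
    have h7 : (Finset.univ.filter (fun e => (A.cmap hp').dbl e)) =
        (Finset.univ.filter (fun e : A.Dart => (fun T => (A.B T).card = 2) e.1.1)) := by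
      ext e
      rw [Finset.mem_filter, Finset.mem_filter]
      exact Iff.rfl
    rw [h7]
    refine Eq.trans (Eq.trans ?_ (A.card_dart (fun T => (A.B T).card = 2))) ?_
    · congr
    calc _ = ∑ T ∈ (Finset.univ : Finset (ZMod (2 * N))).filter (fun T => (A.B T).card = 2), 4 := by
          refine Finset.sum_congr ?_ ?_
          · ext T
            simp only [Finset.mem_filter, Finset.mem_univ, true_and]
            constructor
            · exact fun h => h.1
            · exact fun h => ⟨h, h.ge⟩
          · intro T hT
            rw [(Finset.mem_filter.1 hT).2]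
      _ = _ := by rw [Finset.sum_const, smul_eq_mul, mul_comm]
  rw [hD, h6] at h1
  omega


theorem m3 : S_M3 := by
  intro V _ _ A hV hB
  obtain ⟨N, hN, C, hT, f0, f1, t2⟩ := bridge V A hV
  have h := c3 V N C hV fun T => by
    obtain ⟨i, hi, e⟩ := hT T
    rw [e]
    exact hB i hi
  rw [f0, f1, t2] at h
  omega

end K9h70.PZ
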