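import Mathlib

/-!
# The real variable part of NUM (`k ≥ 49`), MP_872606_gt
-/

set_option autoImplicit false

namespace K9h70.PZ

/-- (a), first half: `I² ≤ k (I + T (T - 1))` -/
theorem numL_sq (k I T : ℤ) (hk : 0 < k)
    (h : ∀ c : ℤ, 2 * c * I ≤ c * (c + 1) * k + T * (T - 1)) :
    I * (I - k) ≤ k * (T * (T - 1)) := by
  have hc := h (I / k)
  have h1 : k * (I / k) + I % k = I := Int.mul_ediv_add_emod I k
  have h2 : 0 ≤ I % k := Int.emod_nonneg I hk.ne'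
  have h3 : I % k < k := Int.emod_lt_of_pos I hk
  generalize I / k = c at *
  generalize I % k = ρ at *
  have h4 : k * (2 * c * I) ≤ k * (c * (c + 1) * k + T * (T - 1)) :=
    mul_le_mul_of_nonneg_left hc hk.le
  have h5 : ρ * ρ ≤ k * ρ := mul_le_mul_of_nonneg_right h3.le h2
  have h6 : k * c = I - ρ := by linarith
  have h7 : k * (2 * c * I) = 2 * (I - ρ) * I := by rw [← h6]; ring
  have h8 : k * (c * (c + 1) * k + T * (T - 1)) = (I - ρ) * (I - ρ + k) + k * (T * (T - 1)) := by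
    rw [← h6]; ring
  rw [h7, h8] at h4
  nlinarith

/-- (a), second half -/
theorem numL_a (q I T : ℝ) (hq : 7 ≤ q) (hT : 0 ≤ T) (hT2 : 2 * T + 8 ≤ q ^ 2)
    (h : I * (I - q ^ 2) ≤ q ^ 2 * (T * (T - 1))) : I ≤ q ^ 2 + (q - 1) * T := by
  by_contra hlt
  push Not at hlt
  have h1 : 0 ≤ (q - 1) * T := mul_nonneg (by linarith) hT
  have h2 : (q - 1) * T < I - q ^ 2 := by linarith
  have h3 : 0 < q ^ 2 + (q - 1) * T := by positivity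
  have h4 : (q ^ 2 + (q - 1) * T) * ((q - 1) * T) < I * (I - q ^ 2) := by
    have e1 : (q ^ 2 + (q - 1) * T) * ((q - 1) * T) ≤ I * ((q - 1) * T) :=
      mul_le_mul_of_nonneg_right hlt.le h1
    have e2 : I * ((q - 1) * T) < I * (I - q ^ 2) :=
      mul_lt_mul_of_pos_left h2 (h3.trans hlt)
    linarith
  have h5 : 0 ≤ T * (q ^ 3 - (2 * q - 1) * T) := by
    apply mul_nonneg hT
    nlinarith [mul_nonneg (show (0:ℝ) ≤ q by linarith) (show (0:ℝ) ≤ q ^ 2 - 8 - 2 * T by linarith)]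
  nlinarith

theorem numL_real (q R S T : ℝ) (hq : 7 ≤ q) (hR5 : 5 ≤ R) (hR : 3 * R ≤ q ^ 2 + 3) (hT : 0 ≤ T)
    (hT2 : 2 * T + 8 ≤ q ^ 2) (hS : S + T ≤ q ^ 2 + (q - 1) * T)
    (h1 : (q ^ 2) ^ 2 + 82 + 50 * T ≤ 15 * q ^ 2 + (R + 8) * S)
    (h2 : R * (q ^ 2 - R - 1) + 25 + 12 * T ≤ 3 * S + 4 * q ^ 2) : False := by
  have hk : 49 ≤ q ^ 2 := by nlinarith
  have hS' : S ≤ q ^ 2 + (q - 2) * T := by linarith
  have h1' : (R + 8) * S ≤ (R + 8) * (q ^ 2 + (q - 2) * T) :=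
    mul_le_mul_of_nonneg_left hS' (by linarith)
  -- (b)
  have hb : 50 ≤ (R + 8) * (q - 2) := by
    by_contra hlt
    push Not at hlt
    have e1 : ((R + 8) * (q - 2)) * T ≤ 50 * T := mul_le_mul_of_nonneg_right hlt.le hT
    have e2 : (q ^ 2) ^ 2 + 82 ≤ (R + 23) * q ^ 2 := by nlinarith
    nlinarith
  -- (c)
  have hc : ((R + 8) * (q - 2) - 50) * (2 * T) ≤ ((R + 8) * (q - 2) - 50) * (q ^ 2 - 8) :=
    mul_le_mul_of_nonneg_left (by linarith) (by linarith)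
  have I1 : 2 * (q ^ 4 + 10 * q ^ 2 - 118) ≤ (R + 8) * (q ^ 3 - 8 * q + 16) := by nlinarith
  have hc2 : (3 * q - 18) * (2 * T) ≤ (3 * q - 18) * (q ^ 2 - 8) :=
    mul_le_mul_of_nonneg_left (by linarith) (by linarith)
  have II1 : 2 * (R * (q ^ 2 - R - 1)) ≤ 3 * q ^ 3 - 4 * q ^ 2 - 24 * q + 94 := by nlinarith
  clear hc hc2 h1 h2 h1' hS hS' hb
  obtain ⟨t, rfl⟩ : ∃ t : ℝ, q = 7 + t := ⟨q - 7, by ring⟩
  have ht : 0 ≤ t := by linarith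
  -- (d1)
  have hP : 0 < (7 + t) ^ 3 - 8 * (7 + t) + 16 := by
    have : (7 + t) ^ 3 - 8 * (7 + t) + 16 = t ^ 3 + 21 * t ^ 2 + 139 * t + 303 := by ring
    rw [this]; positivity
  have d1 : 2 * (7 + t) ^ 2 - 8 * (7 + t) + 30 ≤ R * (7 + t) := by
    by_contra hlt
    push Not at hlt
    have e1 : ((R + 8) * (7 + t)) * ((7 + t) ^ 3 - 8 * (7 + t) + 16)
        < (2 * (7 + t) ^ 2 + 30) * ((7 + t) ^ 3 - 8 * (7 + t) + 16) :=
      mul_lt_mul_of_pos_right (by linarith) hP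
    have e2 : (7 + t) * (2 * ((7 + t) ^ 4 + 10 * (7 + t) ^ 2 - 118))
        ≤ (7 + t) * ((R + 8) * ((7 + t) ^ 3 - 8 * (7 + t) + 16)) :=
      mul_le_mul_of_nonneg_left I1 (by linarith)
    have e3 : 0 ≤ 6 * t ^ 3 + 94 * t ^ 2 + 438 * t + 38 := by positivity
    have e4 : (7 + t) * (2 * ((7 + t) ^ 4 + 10 * (7 + t) ^ 2 - 118))
        - (2 * (7 + t) ^ 2 + 30) * ((7 + t) ^ 3 - 8 * (7 + t) + 16)
        = 6 * t ^ 3 + 94 * t ^ 2 + 438 * t + 38 := by ring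
    nlinarith
  -- (d2)
  have d2 : 2 * (R * (7 + t) * ((7 + t) ^ 3 - R * (7 + t) - (7 + t)))
      ≤ (7 + t) ^ 2 * (3 * (7 + t) ^ 3 - 4 * (7 + t) ^ 2 - 24 * (7 + t) + 94) := by
    have e1 := mul_le_mul_of_nonneg_left II1 (show (0:ℝ) ≤ (7 + t) ^ 2 by positivity)
    calc _ = (7 + t) ^ 2 * (2 * (R * ((7 + t) ^ 2 - R - 1))) := by ring
      _ ≤ _ := e1
  have d3 : R * (7 + t) ≤ ((7 + t) ^ 2 / 3 + 1) * (7 + t) :=
    mul_le_mul_of_nonneg_right (by linarith) (by linarith)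
  generalize R * (7 + t) = x at d1 d2 d3
  have d4 : 0 ≤ (7 + t) ^ 3 - (7 + t) - x - (2 * (7 + t) ^ 2 - 8 * (7 + t) + 30) := by
    have e1 : (7 + t) ^ 3 - (7 + t) - ((7 + t) ^ 2 / 3 + 1) * (7 + t)
        - (2 * (7 + t) ^ 2 - 8 * (7 + t) + 30)
        = 2 / 3 * t ^ 3 + 12 * t ^ 2 + 76 * t + 428 / 3 := by ring
    have e2 : 0 ≤ 2 / 3 * t ^ 3 + 12 * t ^ 2 + 76 * t + 428 / 3 := by positivity
    linarith
  have d5 := mul_nonneg (sub_nonneg.2 d1) d4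
  have d6 : 2 * ((2 * (7 + t) ^ 2 - 8 * (7 + t) + 30) *
      ((7 + t) ^ 3 - (7 + t) - (2 * (7 + t) ^ 2 - 8 * (7 + t) + 30)))
      - (7 + t) ^ 2 * (3 * (7 + t) ^ 3 - 4 * (7 + t) ^ 2 - 24 * (7 + t) + 94)
      = t ^ 5 + 15 * t ^ 4 + 74 * t ^ 3 + 128 * t ^ 2 + 389 * t + 825 := by ring
  have d7 : 0 < t ^ 5 + 15 * t ^ 4 + 74 * t ^ 3 + 128 * t ^ 2 + 389 * t + 825 := by positivity
  nlinarith

/-- NUM for `k ≥ 49` -/
theorem numL : ∀ (k R S T : ℤ), 49 ≤ k → 5 ≤ R → 3 * R ≤ k + 3 → 0 ≤ T → 2 * T + 8 ≤ k → 0 ≤ S →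
    S ≤ T * (R - 1) → k ^ 2 + 82 + 50 * T ≤ 15 * k + (R + 8) * S →
    R * (k - R - 1) + 25 + 12 * T ≤ 3 * S + 4 * k →
    (∀ c : ℤ, 2 * c * (S + T) ≤ c * (c + 1) * k + T * (T - 1)) → False := by
  intro k R S T hk hR5 hR hT hT2 _ _ h1 h2 hc
  have hsq := numL_sq k (S + T) T (by linarith) hc
  have hkr : (49 : ℝ) ≤ (k : ℝ) := by exact_mod_cast hk
  have hq2 : Real.sqrt (k : ℝ) ^ 2 = (k : ℝ) := Real.sq_sqrt (by linarith)
  have hq : 7 ≤ Real.sqrt (k : ℝ) := by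
    apply Real.le_sqrt_of_sq_le
    norm_num
    exact hkr
  have hsqr : ((S : ℝ) + T) * (((S : ℝ) + T) - k) ≤ k * (T * (T - 1)) := by exact_mod_cast hsq
  have hTr : (0 : ℝ) ≤ T := by exact_mod_cast hT
  have hT2r : 2 * (T : ℝ) + 8 ≤ k := by exact_mod_cast hT2
  have ha := numL_a (Real.sqrt (k : ℝ)) ((S : ℝ) + T) T hq hTr (by rw [hq2]; exact hT2r)
    (by rw [hq2]; exact hsqr)
  refine numL_real (Real.sqrt (k : ℝ)) R S T hq (by exact_mod_cast hR5) ?_ hTr ?_ ha ?_ ?_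
  · rw [hq2]; exact_mod_cast hR
  · rw [hq2]; exact hT2r
  · rw [hq2]; exact_mod_cast h1
  · rw [hq2]; exact_mod_cast h2

end K9h70.PZ
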