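import Mathlib

/-!
# The numerical lemma for `k ≤ 48`: a finite check
-/

set_option autoImplicit false

namespace K9h70.PZ

/-- the check for one triple: with the largest possible `S` the two inequalities are not both
true -/
def nsChk (k R T : ℤ) : Bool :=
  let S0 := T * (R - 1)
  let S1 := (2 * k + T * (T - 1)) / 2 - T
  let S2 := (6 * k + T * (T - 1)) / 4 - T
  let S3 := if S0 ≤ S1 then S0 else S1
  let S := if S3 ≤ S2 then S3 else S2
  decide (k + 3 < 3 * R) || decide (k < 2 * T + 8) || decide (15 * k + (R + 8) * S < k * k + 82 + 50 * T) ||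
    decide (3 * S + 4 * k < R * (k - R - 1) + 25 + 12 * T)

lemma nsAll : ∀ k : Fin 49, ∀ R : Fin 18, ∀ T : Fin 21, 5 ≤ R.val →
    nsChk (k.val : ℤ) (R.val : ℤ) (T.val : ℤ) = true := by
  decide +kernel

/-- the numerical lemma for `k ≤ 48` -/
theorem numS (k R S T : ℤ) (hk : k ≤ 48) (h1 : 5 ≤ R) (h2 : 3 * R ≤ k + 3) (h3 : 0 ≤ T)
    (h4 : 2 * T + 8 ≤ k) (_h5 : 0 ≤ S) (h6 : S ≤ T * (R - 1))
    (h7 : k ^ 2 + 82 + 50 * T ≤ 15 * k + (R + 8) * S)
    (h8 : R * (k - R - 1) + 25 + 12 * T ≤ 3 * S + 4 * k)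
    (h9 : ∀ c : ℤ, 2 * c * (S + T) ≤ c * (c + 1) * k + T * (T - 1)) : False := by
  obtain ⟨k', rfl⟩ := Int.eq_ofNat_of_zero_le (by omega : 0 ≤ k)
  obtain ⟨R', rfl⟩ := Int.eq_ofNat_of_zero_le (by omega : 0 ≤ R)
  obtain ⟨T', rfl⟩ := Int.eq_ofNat_of_zero_le h3
  have hall := nsAll ⟨k', by omega⟩ ⟨R', by omega⟩ ⟨T', by omega⟩ (by simpa using (by omega : 5 ≤ R'))
  simp only [nsChk, Bool.or_eq_true, decide_eq_true_eq] at hall
  have c1 := h9 1
  have c2 := h9 2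
  have b1 : S ≤ (2 * (k' : ℤ) + T' * (T' - 1)) / 2 - T' := by
    have : S + T' ≤ (2 * (k' : ℤ) + T' * (T' - 1)) / 2 := by
      rw [Int.le_ediv_iff_mul_le (by norm_num)]
      linarith
    linarith
  have b2 : S ≤ (6 * (k' : ℤ) + T' * (T' - 1)) / 4 - T' := by
    have : S + T' ≤ (6 * (k' : ℤ) + T' * (T' - 1)) / 4 := by
      rw [Int.le_ediv_iff_mul_le (by norm_num)]
      linarith
    linarith
  generalize hS0 : (T' : ℤ) * ((R' : ℤ) - 1) = S0 at h6 hall
  generalize hS1 : (2 * (k' : ℤ) + T' * (T' - 1)) / 2 - T' = S1 at b1 hall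
  generalize hS2 : (6 * (k' : ℤ) + T' * (T' - 1)) / 4 - T' = S2 at b2 hall
  generalize hSm : (if (if S0 ≤ S1 then S0 else S1) ≤ S2 then (if S0 ≤ S1 then S0 else S1) else S2) = Sm
    at hall
  have hle : S ≤ Sm := by
    rw [← hSm]
    split_ifs <;> assumption
  have hR : (0 : ℤ) ≤ (R' : ℤ) + 8 := by omega
  have h10 := mul_le_mul_of_nonneg_left hle hR
  rcases hall with ((h | h) | h) | h
  · omega
  · omega
  · nlinarith
  · linarith

end K9h70.PZ
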