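import Pool.Agent.K9h61.PL.All
import Pool.Agent.K9h70.PZ.H3
import Pool.Agent.K9h70.PZ.M3
import Pool.Agent.K9h70.PZ.E2
import Pool.Agent.K9h70.PZ.NumL
import Pool.Agent.K9h70.PZ.NumS

set_option autoImplicit false

open scoped Classical

namespace K9h70.PZ

open K9h61.PL

theorem t_NUM : S_NUM := by
  intro k R S T h1 h2 h3 h4 h5 h6 h7 h8 h9
  rcases lt_or_ge k 49 with h | h
  · exact numS k R S T (by linarith) h1 h2 h3 h4 h5 h6 h7 h8 h9
  · exact numL k R S T h h1 h2 h3 h4 h5 h6 h7 h8 h9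

theorem S_H3_true : S_H3 := t_H3 K9h61.PL.S_M_true m3 e2 t_NUM

end K9h70.PZ
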