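import Pool.Agent.K9h70.PZ.StmG

/-! Leaf EG: the double count with a general threshold. -/

set_option autoImplicit false

open scoped Classical

namespace K9h70.PZ

open K9h61.PL Finset

theorem eG : S_EG := by
  intro V _ _ A r0 c _
  set P := (range A.N).filter (fun i => r0 ≤ (A.B i).card) with hP
  have hT : (∑ i ∈ range A.N, (if r0 ≤ (A.B i).card then (1 : ℤ) else 0)) = (P.card : ℤ) := by
    rw [← Finset.sum_filter, sum_const, nsmul_eq_mul, mul_one]
  have hS : (∑ i ∈ range A.N, (if r0 ≤ (A.B i).card then ((A.B i).card : ℤ) else 0)) =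
      ∑ i ∈ P, ((A.B i).card : ℤ) := by
    rw [hP, sum_filter]
  have hint : ∀ i ∈ P, ∀ j ∈ P, i ≠ j → (A.B i ∩ A.B j).card ≤ 1 := by
    intro i hi j hj hij
    rw [card_le_one]
    intro x hx y hy
    by_contra hxy
    rw [mem_inter] at hx hy
    rw [hP, mem_filter, mem_range] at hi hj
    exact hij (A.uniq x y hxy i hi.1 j hj.1 hx.1 hy.1 hx.2 hy.2)
  have hA1 : ∑ l : V, (∑ i ∈ P, if l ∈ A.B i then (1 : ℤ) else 0) = ∑ i ∈ P, ((A.B i).card : ℤ) := by
    rw [sum_comm]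
    refine sum_congr rfl fun i _ => ?_
    simp
  have hA2 : ∑ l : V, (∑ i ∈ P, if l ∈ A.B i then (1 : ℤ) else 0) *
      (∑ i ∈ P, if l ∈ A.B i then (1 : ℤ) else 0) ≤
      ∑ i ∈ P, ((A.B i).card : ℤ) + P.card * (P.card - 1) := by
    have e1 : ∑ l : V, (∑ i ∈ P, if l ∈ A.B i then (1 : ℤ) else 0) *
        (∑ i ∈ P, if l ∈ A.B i then (1 : ℤ) else 0) =
        ∑ i ∈ P, ∑ j ∈ P, ((A.B i ∩ A.B j).card : ℤ) := by
      simp_rw [sum_mul_sum]
      rw [sum_comm]
      refine sum_congr rfl fun i _ => ?_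
      rw [sum_comm]
      refine sum_congr rfl fun j _ => ?_
      have : ∀ l : V, ((if l ∈ A.B i then (1 : ℤ) else 0) * if l ∈ A.B j then (1 : ℤ) else 0) =
          if l ∈ A.B i ∩ A.B j then 1 else 0 := by
        intro l
        by_cases h1 : l ∈ A.B i <;> by_cases h2 : l ∈ A.B j <;> simp [h1, h2]
      rw [sum_congr rfl fun l _ => this l, sum_boole]
      congr 2
      ext l
      simp
    rw [e1]
    have e2 : ∀ i ∈ P, ∑ j ∈ P, ((A.B i ∩ A.B j).card : ℤ) ≤ ((A.B i).card : ℤ) + (P.card - 1) := by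
      intro i hi
      rw [← add_sum_erase P _ hi, inter_self]
      have h1 : ∑ j ∈ P.erase i, ((A.B i ∩ A.B j).card : ℤ) ≤ ∑ j ∈ P.erase i, (1 : ℤ) := by
        refine sum_le_sum fun j hj => ?_
        rw [mem_erase] at hj
        exact_mod_cast hint i hi j hj.2 (Ne.symm hj.1)
      rw [sum_const, nsmul_eq_mul, mul_one, card_erase_of_mem hi,
        Nat.cast_sub (card_pos.2 ⟨i, hi⟩)] at h1
      push_cast at h1
      linarith
    refine (sum_le_sum e2).trans ?_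
    rw [sum_add_distrib, sum_const, nsmul_eq_mul]
  have h3 : 0 ≤ ∑ l : V, ((∑ i ∈ P, if l ∈ A.B i then (1 : ℤ) else 0) - c) *
      ((∑ i ∈ P, if l ∈ A.B i then (1 : ℤ) else 0) - c - 1) := by
    refine sum_nonneg fun l _ => ?_
    generalize (∑ i ∈ P, if l ∈ A.B i then (1 : ℤ) else 0) - c = z
    rcases le_or_gt z 0 with h | h
    · exact mul_nonneg_of_nonpos_of_nonpos h (by omega)
    · exact mul_nonneg h.le (by omega)
  have h4 : ∑ l : V, ((∑ i ∈ P, if l ∈ A.B i then (1 : ℤ) else 0) - c) *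
      ((∑ i ∈ P, if l ∈ A.B i then (1 : ℤ) else 0) - c - 1) =
      ∑ l : V, (∑ i ∈ P, if l ∈ A.B i then (1 : ℤ) else 0) *
        (∑ i ∈ P, if l ∈ A.B i then (1 : ℤ) else 0) -
      (2 * c + 1) * ∑ l : V, (∑ i ∈ P, if l ∈ A.B i then (1 : ℤ) else 0) +
      c * (c + 1) * (Fintype.card V : ℤ) := by
    have : ∀ l : V, ((∑ i ∈ P, if l ∈ A.B i then (1 : ℤ) else 0) - c) *
      ((∑ i ∈ P, if l ∈ A.B i then (1 : ℤ) else 0) - c - 1) =
      (∑ i ∈ P, if l ∈ A.B i then (1 : ℤ) else 0) *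
        (∑ i ∈ P, if l ∈ A.B i then (1 : ℤ) else 0) -
      (2 * c + 1) * (∑ i ∈ P, if l ∈ A.B i then (1 : ℤ) else 0) + c * (c + 1) := by
      intro l
      ring
    rw [sum_congr rfl fun l _ => this l, sum_add_distrib, sum_sub_distrib, ← mul_sum, sum_const,
      card_univ, nsmul_eq_mul]
    ring
  rw [h4, hA1] at h3
  rw [hT, hS]
  linarith

end K9h70.PZ
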