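import Pool.Agent.K9h70.PZ.HG

/-!
# The two instances of the general induction
-/

set_option autoImplicit false

open scoped Classical

namespace K9h70.PZ

open K9h61.PL Finset

theorem hloc5 (c y : ℕ) (hc : c ≤ 1) : 2 * ((4 : ℤ) * ((c : ℤ) * y)) -
    5 * ((y : ℤ) * ((y : ℤ) - 1)) ≤ 2 * phiG 4 3 1 25 6 (c + y) := by
  rcases Nat.lt_or_ge y 5 with h | h
  · interval_cases c <;> interval_cases y <;> norm_num [phiG]
  · have h5 : (5 : ℤ) ≤ y := by exact_mod_cast h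
    have e : phiG 4 3 1 25 6 (c + y) = 25 - 6 * ((c : ℤ) + y) := by
      unfold phiG
      rw [if_neg (by omega), if_neg (by omega), if_neg (by omega), if_neg (by omega)]
      push_cast
      ring
    rw [e]
    interval_cases c
    · push_cast
      nlinarith
    · push_cast
      nlinarith

theorem hloc7 (c y : ℕ) (hc : c ≤ 1) : 2 * ((9 : ℤ) * ((c : ℤ) * y)) -
    11 * ((y : ℤ) * ((y : ℤ) - 1)) ≤ 2 * phiG 9 7 0 49 12 (c + y) := by
  rcases Nat.lt_or_ge y 5 with h | h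
  · interval_cases c <;> interval_cases y <;> norm_num [phiG]
  · have h5 : (5 : ℤ) ≤ y := by exact_mod_cast h
    have e : phiG 9 7 0 49 12 (c + y) = 49 - 12 * ((c : ℤ) + y) := by
      unfold phiG
      rw [if_neg (by omega), if_neg (by omega), if_neg (by omega), if_neg (by omega)]
      push_cast
      ring
    rw [e]
    interval_cases c
    · push_cast
      nlinarith
    · push_cast
      nlinarith

theorem hsmall5 (k t2 t3 t4 : ℤ) (_ : 0 ≤ t2) (_ : 0 ≤ t3) (_ : 0 ≤ t4)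
    (hF : 4 * t2 + 3 * t3 + 1 * t4 + 1 ≤ 4 * k) (_ : k ≤ t2 + t3) (h1 : 7 + t4 ≤ t2 + t3)
    (h2 : 3 + t4 ≤ t2) (hP : k * (k - 1) ≤ 2 * t2 + 6 * t3 + 12 * t4) : False := by
  have a : 5 * t4 ≤ 4 * k - 25 := by linarith
  have e : k * (k - 1) = k ^ 2 - k := by ring
  rw [e] at hP
  have b : 5 * k ^ 2 - 61 * k + 200 ≤ 0 := by linarith
  have c := sq_nonneg (10 * k - 61)
  have e2 : (10 * k - 61) ^ 2 = 100 * k ^ 2 - 1220 * k + 3721 := by ring
  rw [e2] at c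
  linarith

theorem hsmall7 (k t2 t3 t4 : ℤ) (_ : 0 ≤ t2) (_ : 0 ≤ t3) (_ : 0 ≤ t4)
    (hF : 9 * t2 + 7 * t3 + 0 * t4 + 1 ≤ 9 * k) (_ : k ≤ t2 + t3) (h1 : 7 + t4 ≤ t2 + t3)
    (h2 : 3 + t4 ≤ t2) (hP : k * (k - 1) ≤ 2 * t2 + 6 * t3 + 12 * t4) : False := by
  have a : 9 * t4 ≤ 9 * k - 56 := by linarith
  have e : k * (k - 1) = k ^ 2 - k := by ring
  rw [e] at hP
  have b : 63 * k ^ 2 - 945 * k + 3598 ≤ 0 := by linarith
  have c := sq_nonneg (2 * k - 15)
  have e2 : (2 * k - 15) ^ 2 = 4 * k ^ 2 - 60 * k + 225 := by ring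
  rw [e2] at c
  linarith

theorem inst5 (hM : S_M) (hM3 : S_M3) (hH3 : S_H3) (hE : S_EG) (hN : S_NUM5) : S_G 4 3 1 25 6 := by
  intro V _ _ A hV hB
  exact mainG 4 3 1 25 6 5 (by norm_num) (by norm_num) (by norm_num) (by norm_num) (by norm_num)
    hloc5 (fun R hR => by linarith) hsmall5 hM hM3 hH3 hE hN (Fintype.card V) V A rfl hV hB

theorem inst7 (hM : S_M) (hM3 : S_M3) (hH3 : S_H3) (hE : S_EG) (hN : S_NUM7) : S_G 9 7 0 49 12 := by
  intro V _ _ A hV hB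
  exact mainG 9 7 0 49 12 11 (by norm_num) (by norm_num) (by norm_num) (by norm_num) (by norm_num)
    hloc7 (fun R hR => by linarith) hsmall7 hM hM3 hH3 hE hN (Fintype.card V) V A rfl hV hB

end K9h70.PZ
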