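import Mathlib

/-!
# The numerical lemma for exponent 5, `k ≥ 33` (MP_872606_gt)

The linear consequences of the inequalities suffice: the condition (E5) is not used.
-/

set_option autoImplicit false

namespace K9h70.PZ

/-- (D) gives `2 R < k` -/
theorem num5L_D (k R : ℤ) (hR : R + 4 ≤ k)
    (hD : 2 * (25 - 6 * R) + 2 * 4 * R * (k - R) + 2 ≤ 5 * ((k - R) * (k - R - 1)) + 2 * 4 * k) :
    2 * R < k := by
  by_contra hlt
  push Not at hlt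
  obtain ⟨n, rfl⟩ : ∃ n : ℤ, k = R + n := ⟨k - R, by ring⟩
  have hn : 4 ≤ n := by linarith
  have h1 : 0 ≤ (R - n) * (8 * n - 20) := mul_nonneg (by linarith) (by linarith)
  have h2 : 0 ≤ (6 * n - 23) ^ 2 := sq_nonneg _
  nlinarith

/-- the consequence of (P): `R ≥ k - 23` -/
theorem num5L_P (k R : ℤ) (hk : 33 ≤ k) (h : 5 * k ^ 2 - 140 * k + 615 ≤ R * (5 * k - 20)) :
    k - 23 ≤ R := by
  by_contra hlt
  push Not at hlt
  have h1 : 0 ≤ (k - 24 - R) * (5 * k - 20) := mul_nonneg (by linarith) (by linarith)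
  nlinarith

/-- the end -/
theorem num5L_end (k R : ℤ) (hk : 33 ≤ k) (h1 : k - 23 ≤ R) (h2 : 2 * R < k)
    (hV : 8 * (R * (k - R)) ≤ 10 * R + 57 * k - 253) : False := by
  have h3 : 0 ≤ (R - (k - 23)) * (k - 2 * R) := mul_nonneg (by linarith) (by linarith)
  have h4 : 4 * k * (k - R) ≤ 149 * k - 174 * R - 253 := by nlinarith
  by_cases h44 : 44 ≤ k
  · have h5 : 0 ≤ (2 * k - 87) * (k - 2 * R) := mul_nonneg (by linarith) (by linarith)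
    nlinarith
  · push Not at h44
    have h5 : 0 ≤ (87 - 2 * k) * (R - (k - 23)) := mul_nonneg (by linarith) (by linarith)
    nlinarith

/-- `S_NUM5` for `k ≥ 33` -/
theorem num5L : ∀ k R t2 t3 t4 S T : ℤ, 33 ≤ k →
    5 ≤ R → R + 4 ≤ k → 0 ≤ t2 → 0 ≤ t3 → 0 ≤ t4 → 1 ≤ T → 4 * T ≤ S → S ≤ T * (R - 1) →
    4 * t2 + 3 * t3 + 1 * t4 + (25 - 6) * T + 1 ≤ 4 * k + 6 * S →
    k + 2 * S ≤ t2 + t3 + 7 * T →
    7 + t4 + 2 * S ≤ t2 + t3 + 5 * T →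
    3 + t4 + S ≤ t2 + 2 * T →
    k * (k - 1) + 4 * (R - 1) * T ≤ 2 * t2 + 6 * t3 + 12 * t4 + (R + 4) * S →
    2 * t2 + 6 * t3 + 12 * t4 + 10 * S ≤ k * (k - 1) + 20 * T →
    4 * R * (k - R) + 4 * (R - 1) ≤ (4 - 1) * R + 6 * (R - 1) + (3 * 4 - 3) * t3 +
      (3 * 4 - 1 + 3) * t4 + 4 * S + 6 * T →
    2 * 4 * t2 + 3 * (3 - 4) * t3 + 4 * (1 - 3) * t4 ≤ (4 - 1) * k + 6 * (S + T) →
    (∀ c : ℤ, 2 * c * (S + T) ≤ c * (c + 1) * k + T * (T - 1)) →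
    (∀ c : ℤ, 2 * c * (S + T + 4 * t4) ≤ c * (c + 1) * k + (T + t4) * (T + t4 - 1)) →
    2 * (25 - 6 * R) + 2 * 4 * R * (k - R) + 2 ≤ 5 * ((k - R) * (k - R - 1)) + 2 * 4 * k →
    False := by
  intro k R t2 t3 t4 S T hk hR5 hRk h2 h3 h4 hT _ _ hF hU hSt hM hP _ hV _ _ _ hD
  -- (a)
  have a1 : 3 * t3 ≤ 4 * k + 2 * S - 5 * t4 - 11 * T - 13 := by linarith
  have a2 : 5 * t4 + S + 2 * T ≤ 4 * k - 25 := by linarith
  have a3 : S + 2 * t4 ≤ k - 4 + 4 * T := by linarith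
  -- (b)
  have b1 : 5 * k ^ 2 - 61 * k + 200 + (20 * R + 118) * T ≤ (5 * R + 46) * S := by nlinarith
  have b2 : 4 * (R * (k - R)) + 41 + 27 * T ≤ 5 * R + 12 * k + 10 * S := by nlinarith
  -- elimination of `S`, `T`
  have c1 : 8 * (R * (k - R)) ≤ 10 * R + 57 * k - 253 := by linarith
  have c2 : 0 ≤ (5 * R + 35) * (k - 4 + 4 * T - S) := mul_nonneg (by linarith) (by linarith)
  have c3 : 5 * k ^ 2 - 140 * k + 615 ≤ R * (5 * k - 20) := by nlinarith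
  exact num5L_end k R hk (num5L_P k R hk c3) (num5L_D k R hRk hD) c1

end K9h70.PZ
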