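import Mathlib

/-!
# `S_NUM5` for `k ≤ 32`
-/

set_option autoImplicit false

namespace K9h70.PZ

/-- maximal possible value of `S` -/
def smax5 (k R T : ℤ) : ℤ :=
  min (T * (R - 1)) (min (4 * k - 25 - 2 * T) (min (k - 4 + 4 * T)
    (min ((2 * k + T * (T - 1)) / 2 - T) (min ((6 * k + T * (T - 1)) / 4 - T)
      (min ((12 * k + T * (T - 1)) / 6 - T) ((20 * k + T * (T - 1)) / 8 - T))))))

/-- the check -/
def chk5 (k R T : ℤ) : Bool :=
  decide (k < R + 4) ||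
  decide (5 * ((k - R) * (k - R - 1)) + 2 * 4 * k < 2 * (25 - 6 * R) + 2 * 4 * R * (k - R) + 2) ||
  decide ((5 * R + 46) * smax5 k R T < 5 * k ^ 2 - 61 * k + 200 + (20 * R + 118) * T) ||
  decide (10 * smax5 k R T < 4 * R * (k - R) - 5 * R - 12 * k + 41 + 27 * T) ||
  (decide (T = 3) && (decide (k = 12 ∧ R = 5) || decide (k = 14 ∧ R = 6) || decide (k = 15 ∧ R = 6) ||
    decide (k = 16 ∧ R = 7)))

lemma chk5_all : ∀ k : Fin 33, ∀ R : Fin 29, ∀ T : Fin 18, 5 ≤ R.val → 1 ≤ T.val →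
    chk5 (k.val : ℤ) (R.val : ℤ) (T.val : ℤ) = true := by
  decide +kernel

theorem num5S : ∀ k R t2 t3 t4 S T : ℤ, k ≤ 32 →
    5 ≤ R → R + 4 ≤ k → 0 ≤ t2 → 0 ≤ t3 → 0 ≤ t4 → 1 ≤ T → 4 * T ≤ S → S ≤ T * (R - 1) →
    4 * t2 + 3 * t3 + 1 * t4 + (25 - 6) * T + 1 ≤ 4 * k + 6 * S →
    k + 2 * S ≤ t2 + t3 + 7 * T →
    7 + t4 + 2 * S ≤ t2 + t3 + 5 * T →
    3 + t4 + S ≤ t2 + 2 * T →
    k * (k - 1) + 4 * (R - 1) * T ≤ 2 * t2 + 6 * t3 + 12 * t4 + (R + 4) * S →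
    2 * t2 + 6 * t3 + 12 * t4 + 10 * S ≤ k * (k - 1) + 20 * T →
    4 * R * (k - R) + 4 * (R - 1) ≤ (4 - 1) * R + 6 * (R - 1) + (3 * 4 - 3) * t3 +
      (3 * 4 - 1 + 3) * t4 + 4 * S + 6 * T →
    2 * 4 * t2 + 3 * (3 - 4) * t3 + 4 * (1 - 3) * t4 ≤ (4 - 1) * k + 6 * (S + T) →
    (∀ c : ℤ, 2 * c * (S + T) ≤ c * (c + 1) * k + T * (T - 1)) →
    (∀ c : ℤ, 2 * c * (S + T + 4 * t4) ≤ c * (c + 1) * k + (T + t4) * (T + t4 - 1)) →
    2 * (25 - 6 * R) + 2 * 4 * R * (k - R) + 2 ≤ 5 * ((k - R) * (k - R - 1)) + 2 * 4 * k →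
    False := by
  intro k R t2 t3 t4 S T hk hR hRk h2 h3 h4 hT hST hSR hF hU hSt hM hP hP' hV hPS hE5 hE4 hD
  have a1 : 5 * t4 + S + 2 * T + 25 ≤ 4 * k := by linarith
  have a2 : S + 2 * t4 + 4 ≤ k + 4 * T := by linarith
  have b1 : 5 * k ^ 2 - 61 * k + 200 + (20 * R + 118) * T ≤ (5 * R + 46) * S := by nlinarith
  have c1 : 4 * R * (k - R) - 5 * R - 12 * k + 41 + 27 * T ≤ 10 * S := by linarith
  have e1 := hE5 1
  have e2 := hE5 2
  have e3 := hE5 3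
  have e4 := hE5 4
  have hmax : S ≤ smax5 k R T := by
    unfold smax5
    refine le_min hSR (le_min (by linarith) (le_min (by linarith) (le_min ?_ (le_min ?_
      (le_min ?_ ?_)))))
    · have : S + T ≤ (2 * k + T * (T - 1)) / 2 := by
        rw [Int.le_ediv_iff_mul_le (by norm_num)]; linarith
      linarith
    · have : S + T ≤ (6 * k + T * (T - 1)) / 4 := by
        rw [Int.le_ediv_iff_mul_le (by norm_num)]; linarith
      linarith
    · have : S + T ≤ (12 * k + T * (T - 1)) / 6 := by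
        rw [Int.le_ediv_iff_mul_le (by norm_num)]; linarith
      linarith
    · have : S + T ≤ (20 * k + T * (T - 1)) / 8 := by
        rw [Int.le_ediv_iff_mul_le (by norm_num)]; linarith
      linarith
  have b2 : 5 * k ^ 2 - 61 * k + 200 + (20 * R + 118) * T ≤ (5 * R + 46) * smax5 k R T :=
    b1.trans (mul_le_mul_of_nonneg_left hmax (by linarith))
  have c2 : 4 * R * (k - R) - 5 * R - 12 * k + 41 + 27 * T ≤ 10 * smax5 k R T := by linarith
  have hT17 : T ≤ 17 := by omega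
  obtain ⟨k', hk'⟩ := Int.eq_ofNat_of_zero_le (by omega : 0 ≤ k)
  obtain ⟨R', hR'⟩ := Int.eq_ofNat_of_zero_le (by omega : 0 ≤ R)
  obtain ⟨T', hT'⟩ := Int.eq_ofNat_of_zero_le (by omega : 0 ≤ T)
  have hall := chk5_all ⟨k', by omega⟩ ⟨R', by omega⟩ ⟨T', by omega⟩
    (show 5 ≤ R' by omega) (show 1 ≤ T' by omega)
  simp only [chk5, Bool.or_eq_true, Bool.and_eq_true, decide_eq_true_eq] at hall
  rw [show ((k' : ℕ) : ℤ) = k from hk'.symm, show ((R' : ℕ) : ℤ) = R from hR'.symm,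
    show ((T' : ℕ) : ℤ) = T from hT'.symm] at hall
  have f4 := hE4 1
  clear hE5 hE4 hmax
  rcases hall with (((h | h) | h) | h) | ⟨hT3, h⟩
  · omega
  · linarith
  · linarith
  · linarith
  · rcases h with ((⟨rfl, rfl⟩ | ⟨rfl, rfl⟩) | ⟨rfl, rfl⟩) | ⟨rfl, rfl⟩
    · subst hT3
      omega
    · subst hT3
      have h44 : t4 ≤ 4 := by omega
      interval_cases t4 <;> omega
    · subst hT3
      have h44 : t4 ≤ 4 := by omega
      interval_cases t4 <;> omega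
    · subst hT3
      have h44 : t4 ≤ 4 := by omega
      interval_cases t4 <;> omega

end K9h70.PZ
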