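import Mathlib

/-!
# The numerical core for exponents at least seven, `k ≥ 22` (MP_872606_gt)
-/

set_option autoImplicit false

namespace K9h70.PZ

/-- the consequence of (F), (U), (St), (M), (P) in which only `k` and `R` are left -/
theorem num7L_key (k R t2 t3 t4 S T : ℤ) (hR : 5 ≤ R) (h4 : 0 ≤ t4)
    (hF : 9 * t2 + 7 * t3 + 37 * T + 1 ≤ 9 * k + 12 * S)
    (hU : k + 2 * S ≤ t2 + t3 + 7 * T)
    (hSt : 7 + t4 + 2 * S ≤ t2 + t3 + 5 * T)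
    (hM : 3 + t4 + S ≤ t2 + 2 * T)
    (hP : k * (k - 1) + 4 * (R - 1) * T ≤ 2 * t2 + 6 * t3 + 12 * t4 + (R + 4) * S) :
    126 * k ^ 2 - 2772 * k + 12204 ≤ 63 * (R * (k - 4)) := by
  have a1 : 7 * t3 ≤ 9 * k - 28 + 3 * S - 19 * T - 9 * t4 := by linarith
  have a2 : 9 * t4 + 4 * S ≤ 9 * k - 56 + 2 * T := by linarith
  have a3 : t4 + 2 * S ≤ k - 4 + 8 * T := by omega
  have a4 : 0 ≤ (63 * R + 216) * (k - 4 + 8 * T - 2 * S) :=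
    mul_nonneg (by linarith) (by linarith)
  have b1 : 63 * k ^ 2 - 945 * k + 3598 + (252 * R + 938) * T ≤ (63 * R + 364) * S := by
    linarith
  linarith

/-- the numerical core for exponents at least seven, `k ≥ 22` -/
theorem num7L (k R t2 t3 t4 S T : ℤ) (hk : 22 ≤ k) (hR : 5 ≤ R) (hRk : R + 4 ≤ k) (h4 : 0 ≤ t4)
    (hF : 9 * t2 + 7 * t3 + 0 * t4 + (49 - 12) * T + 1 ≤ 9 * k + 12 * S)
    (hU : k + 2 * S ≤ t2 + t3 + 7 * T)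
    (hSt : 7 + t4 + 2 * S ≤ t2 + t3 + 5 * T)
    (hM : 3 + t4 + S ≤ t2 + 2 * T)
    (hP : k * (k - 1) + 4 * (R - 1) * T ≤ 2 * t2 + 6 * t3 + 12 * t4 + (R + 4) * S)
    (hD : 2 * (49 - 12 * R) + 2 * 9 * R * (k - R) + 2 ≤
      11 * ((k - R) * (k - R - 1)) + 2 * 9 * k) : False := by
  have key := num7L_key k R t2 t3 t4 S T hR h4 (by linarith) hU hSt hM hP
  clear hF hU hSt hM hP
  rcases le_or_gt 31 k with hk2 | hk2
  · have h1 : R * (k - 4) ≤ (k - 4) * (k - 4) := mul_le_mul_of_nonneg_right (by linarith)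
      (by linarith)
    nlinarith
  · interval_cases k <;> (have hR2 : R ≤ 26 := by omega) <;> interval_cases R <;> omega

/-- NUM7 for `k ≥ 22`: the statement `S_NUM7` with the additional hypothesis `22 ≤ k` -/
theorem numG7L : ∀ k R t2 t3 t4 S T : ℤ, 22 ≤ k →
    5 ≤ R → R + 4 ≤ k → 0 ≤ t2 → 0 ≤ t3 → 0 ≤ t4 → 1 ≤ T → 4 * T ≤ S → S ≤ T * (R - 1) →
    9 * t2 + 7 * t3 + 0 * t4 + (49 - 12) * T + 1 ≤ 9 * k + 12 * S →
    k + 2 * S ≤ t2 + t3 + 7 * T →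
    7 + t4 + 2 * S ≤ t2 + t3 + 5 * T →
    3 + t4 + S ≤ t2 + 2 * T →
    k * (k - 1) + 4 * (R - 1) * T ≤ 2 * t2 + 6 * t3 + 12 * t4 + (R + 4) * S →
    2 * t2 + 6 * t3 + 12 * t4 + 10 * S ≤ k * (k - 1) + 20 * T →
    9 * R * (k - R) + 9 * (R - 1) ≤ (9 - 1) * R + 12 * (R - 1) + (3 * 9 - 7) * t3 +
      (3 * 9 - 0 + 7) * t4 + 9 * S + 12 * T →
    2 * 9 * t2 + 3 * (7 - 9) * t3 + 4 * (0 - 7) * t4 ≤ (9 - 1) * k + 12 * (S + T) →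
    (∀ c : ℤ, 2 * c * (S + T) ≤ c * (c + 1) * k + T * (T - 1)) →
    (∀ c : ℤ, 2 * c * (S + T + 4 * t4) ≤ c * (c + 1) * k + (T + t4) * (T + t4 - 1)) →
    2 * (49 - 12 * R) + 2 * 9 * R * (k - R) + 2 ≤ 11 * ((k - R) * (k - R - 1)) + 2 * 9 * k →
    False := fun k R t2 t3 t4 S T hk hR hRk _ _ h4 _ _ _ hF hU hSt hM hP _ _ _ _ _ hD =>
  num7L k R t2 t3 t4 S T hk hR hRk h4 hF hU hSt hM hP hD

end K9h70.PZ
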