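import Pool.Agent.K9h64.PL.E
import Pool.Agent.K9h70.PZ.All
import Pool.Agent.K9h70.PZ.InstG
import Pool.Agent.K9h70.PZ.EG
import Pool.Agent.K9h70.PZ.Num5L
import Pool.Agent.K9h70.PZ.Num7L
import Pool.Agent.K9h70.PZ.Num5S
import Pool.Agent.K9h70.PZ.Num7S

set_option autoImplicit false

open scoped Classical

namespace K9h70.PZ

open K9h61.PL

theorem t_NUM5 : S_NUM5 := by
  intro k R t2 t3 t4 S T h1 h2 h3 h4 h5 h6 h7 h8 hF hU hSt hM hP hP' hV hPS hE5 hE4 hD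
  rcases le_or_gt k 32 with hk | hk
  · exact num5S k R t2 t3 t4 S T hk h1 h2 h3 h4 h5 h6 h7 h8 hF hU hSt hM hP hP' hV hPS hE5 hE4 hD
  · exact num5L k R t2 t3 t4 S T (by linarith) h1 h2 h3 h4 h5 h6 h7 h8 hF hU hSt hM hP hP' hV hPS
      hE5 hE4 hD

theorem t_NUM7 : S_NUM7 := by
  intro k R t2 t3 t4 S T h1 h2 h3 h4 h5 h6 h7 h8 hF hU hSt hM hP hP' hV hPS hE5 hE4 hD
  rcases le_or_gt k 21 with hk | hk
  · exact num7S k R t2 t3 t4 S T hk h1 h2 h3 h4 h5 h6 h7 h8 hF hU hSt hM hP hP' hV hPS hE5 hE4 hD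
  · exact numG7L k R t2 t3 t4 S T (by linarith) h1 h2 h3 h4 h5 h6 h7 h8 hF hU hSt hM hP hP' hV hPS
      hE5 hE4 hD

theorem G5_true : S_G 4 3 1 25 6 := inst5 K9h61.PL.S_M_true m3 S_H3_true eG t_NUM5

theorem G7_true : S_G 9 7 0 49 12 := inst7 K9h61.PL.S_M_true m3 S_H3_true eG t_NUM7

end K9h70.PZ
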