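import Pool.Agent.K9h70.PZ.Stm

/-!
# General weights: interfaces

Weights `phiG`: `kc` for double points, `f3`, `f4` for points of multiplicity 3, 4 and `c0 - m r` for
multiplicity `r ≥ 5`.  Two cases are needed:
* G5: `kc = 4, f3 = 3, f4 = 1, c0 = 25, m = 6, A = 5` (exponent 5),
* G7: `kc = 9, f3 = 7, f4 = 0, c0 = 49, m = 12, A = 11` (exponents at least 7).
-/

set_option autoImplicit false

open scoped Classical

namespace K9h70.PZ

open K9h61.PL Finset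

/-- LEAF EG: general threshold `r0` (copy `E2.lean`) -/
def S_EG : Prop := ∀ (V : Type) [Fintype V] [LinearOrder V] (A : Arr V) (r0 : ℕ) (c : ℤ), 2 ≤ r0 →
  2 * c * (∑ i ∈ range A.N, (if r0 ≤ (A.B i).card then ((A.B i).card : ℤ) else 0)) ≤
    c * (c + 1) * (Fintype.card V : ℤ) +
      (∑ i ∈ range A.N, (if r0 ≤ (A.B i).card then (1 : ℤ) else 0)) *
        ((∑ i ∈ range A.N, (if r0 ≤ (A.B i).card then (1 : ℤ) else 0)) - 1)

/-- the numerical core with a point of multiplicity at least 5 (`R` the maximal multiplicity,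
`T` = number of points of multiplicity `≥ 5`, `S = ∑ (r - 1)` over them) -/
def S_NUMG (kc f3 f4 c0 m A : ℤ) : Prop := ∀ k R t2 t3 t4 S T : ℤ,
  5 ≤ R → R + 4 ≤ k → 0 ≤ t2 → 0 ≤ t3 → 0 ≤ t4 → 1 ≤ T → 4 * T ≤ S → S ≤ T * (R - 1) →
  -- (F) the inequality fails
  kc * t2 + f3 * t3 + f4 * t4 + (c0 - m) * T + 1 ≤ kc * k + m * S →
  -- (U) the inequality of `S_H3`, (St) of `S_M3`, (M) Melchior
  k + 2 * S ≤ t2 + t3 + 7 * T →
  7 + t4 + 2 * S ≤ t2 + t3 + 5 * T →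
  3 + t4 + S ≤ t2 + 2 * T →
  -- (P) pairs of lines, two bounds
  k * (k - 1) + 4 * (R - 1) * T ≤ 2 * t2 + 6 * t3 + 12 * t4 + (R + 4) * S →
  2 * t2 + 6 * t3 + 12 * t4 + 10 * S ≤ k * (k - 1) + 20 * T →
  -- (V) pairs of lines of which one passes through the point of multiplicity `R`
  kc * R * (k - R) + kc * (R - 1) ≤ (kc - 1) * R + m * (R - 1) + (3 * kc - f3) * t3 +
    (3 * kc - f4 + f3) * t4 + kc * S + m * T →
  -- (PS) deletion, summed over all lines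
  2 * kc * t2 + 3 * (f3 - kc) * t3 + 4 * (f4 - f3) * t4 ≤ (kc - 1) * k + m * (S + T) →
  -- (E5), (E4)
  (∀ c : ℤ, 2 * c * (S + T) ≤ c * (c + 1) * k + T * (T - 1)) →
  (∀ c : ℤ, 2 * c * (S + T + 4 * t4) ≤ c * (c + 1) * k + (T + t4) * (T + t4 - 1)) →
  -- (D) direct count fails
  2 * (c0 - m * R) + 2 * kc * R * (k - R) + 2 ≤ A * ((k - R) * (k - R - 1)) + 2 * kc * k →
  False

/-- LEAF NUM5 -/
def S_NUM5 : Prop := S_NUMG 4 3 1 25 6 5

/-- LEAF NUM7 -/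
def S_NUM7 : Prop := S_NUMG 9 7 0 49 12 11

/-!
### Sketch for NUM5 (all checked by computer)
(a) from (F), (M): `3 t3 ≤ 4k - 13 + 2S - 11T - 5t4`; with (St): `5 t4 + S + 2T ≤ 4k - 25`; with (U),
(M): `S + 2 t4 ≤ k - 4 + 4T`.
(b) (P): `5k² - 61k + 200 + (20R + 118) T ≤ (5R + 46) S`;
(V): `4R(k-R) + 41 + 27T ≤ 5R + 12k + 10S`.
(c) with (E5) for `c = 1..8`, `S ≤ T(R-1)`, `4T ≤ S`, (D): for `9 ≤ k ≤ 299` the only solutions
`(k,R,T,S)` are `(12,5,3,12), (14,6,3,14), (15,6,3,15), (16,7,3,16)`; these four are excluded by the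
given inequalities with `t2, t3, t4` ((14,6,3,14) needs (E4) with `c = 1`: `t4 = 0` or `t4 ≥ 3`).
(d) large `k`: as in `NumL.lean` (`q = √k`, `S ≤ k + (q - 2) T`), here also `T ≤ (4k - 25)/6`;
or simpler: `S ≤ k - 4 + 4T`, `S + 2T ≤ 4k - 25` give `S ≤ 3k`, and (V) gives an upper bound for
`R` (note (D) gives `R < 0.39 k + 2`), (b) a lower bound.
### Sketch for NUM7
(a) `7 t3 ≤ 9k - 28 + 3S - 19T - 9t4`; with (St): `9 t4 + 4S ≤ 9k - 56 + 2T`; with (U), (M):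
`2S + t4 ≤ k - 4 + 8T`.
(b) (P): `63k² - 945k + 3598 + (252R + 938) T ≤ (63R + 364) S`;
(V): `567R(k-R) + 8477 + 2548T ≤ 693R + 2142k + 875S`.
(c) the same with the exceptions `(11,5,2,8), (12,5,3,12), (14,6,3,14), (15,6,3,15), (16,7,3,16)`.
-/

/-- the weights -/
def phiG (kc f3 f4 c0 m : ℤ) (b : ℕ) : ℤ :=
  if b < 2 then 0 else if b = 2 then kc else if b = 3 then f3 else if b = 4 then f4
    else c0 - m * b

/-- the general inequality -/
def S_G (kc f3 f4 c0 m : ℤ) : Prop := ∀ (V : Type) [Fintype V] [LinearOrder V] (A : Arr V),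
  2 ≤ Fintype.card V → (∀ i < A.N, (A.B i).card + 3 ≤ Fintype.card V) →
  kc * (Fintype.card V : ℤ) ≤ ∑ i ∈ range A.N, phiG kc f3 f4 c0 m (A.B i).card

end K9h70.PZ
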