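import Pool.Agent.K9h70.PZ.H3
import Pool.Agent.K9h70.PZ.StmG

/-!
# The induction for general weights
-/

set_option autoImplicit false
set_option maxHeartbeats 1000000

open scoped Classical

namespace K9h70.PZ

open K9h61.PL K9h61.PL.LeafH Finset

section G

variable (kc f3 f4 c0 m A0 : ℤ)

/-- change of `phiG` when a line through the point is deleted -/
def psiG (b : ℕ) : ℤ :=
  if b < 2 then 0 else if b = 2 then kc else if b = 3 then f3 - kc else if b = 4 then f4 - f3
    else if b = 5 then c0 - 5 * m - f4 else -m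

theorem phiG_sub (b : ℕ) (hb : 1 ≤ b) :
    phiG kc f3 f4 c0 m b - phiG kc f3 f4 c0 m (b - 1) = psiG kc f3 f4 c0 m b := by
  obtain ⟨c, rfl⟩ : ∃ c, b = c + 1 := ⟨b - 1, by omega⟩
  have h : c + 1 - 1 = c := by omega
  rw [h]
  rcases Nat.lt_or_ge c 5 with h5 | h5
  · interval_cases c <;> simp [phiG, psiG] <;> ring
  · unfold phiG psiG
    rw [if_neg (by omega), if_neg (by omega), if_neg (by omega), if_neg (by omega),
      if_neg (by omega), if_neg (by omega), if_neg (by omega), if_neg (by omega),
      if_neg (by omega), if_neg (by omega), if_neg (by omega), if_neg (by omega),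
      if_neg (by omega)]
    push_cast
    ring

theorem psiG_ge (h5 : -m ≤ c0 - 5 * m - f4) (b : ℕ) (hb : 5 ≤ b) : -m ≤ psiG kc f3 f4 c0 m b := by
  unfold psiG
  rw [if_neg (by omega), if_neg (by omega), if_neg (by omega), if_neg (by omega)]
  split_ifs
  · exact h5
  · exact le_refl _

section count

variable {V : Type} [Fintype V] [LinearOrder V]

theorem PhiG_del (A : Arr V) (l : V) :
    ∑ i ∈ range A.N, phiG kc f3 f4 c0 m (A.B i).card -
      ∑ i ∈ range (del A l).N, phiG kc f3 f4 c0 m ((del A l).B i).card =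
      ∑ i ∈ range A.N, (if l ∈ A.B i then psiG kc f3 f4 c0 m (A.B i).card else 0) := by
  show ∑ i ∈ range A.N, phiG kc f3 f4 c0 m (A.B i).card -
    ∑ i ∈ range A.N, phiG kc f3 f4 c0 m ((del A l).B i).card = _
  rw [← sum_sub_distrib]
  refine sum_congr rfl fun i _ => ?_
  rw [card_del]
  split_ifs with hl
  · exact phiG_sub kc f3 f4 c0 m _ (card_pos.2 ⟨l, hl⟩)
  · simp

theorem sum_psiG (A : Arr V) (P : Finset V) :
    ∑ l ∈ P, ∑ i ∈ range A.N, (if l ∈ A.B i then psiG kc f3 f4 c0 m (A.B i).card else 0) =
      ∑ i ∈ range A.N, ((A.B i ∩ P).card : ℤ) * psiG kc f3 f4 c0 m (A.B i).card := by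
  rw [sum_comm]
  refine sum_congr rfl fun i _ => ?_
  rw [← sum_filter, sum_const, nsmul_eq_mul]
  congr 3
  ext x
  simp only [mem_filter, mem_inter]
  tauto

end count

/-- local contribution for the count of the pairs (line of `P`, other line) -/
def ggG (b : ℕ) : ℤ := if b = 3 then 3 * kc - f3 else if b = 4 then 3 * kc - f4 + f3
  else if 5 ≤ b then kc * ((b : ℤ) - 1) + m else 0

theorem loc_aG (hkc : 0 ≤ kc) (h3 : 0 ≤ 3 * kc - f3) (h4 : 0 ≤ 3 * kc - f4 + f3) (hm : 0 ≤ m)
    (h5 : -m ≤ c0 - 5 * m - f4) (c y : ℕ) (hc : c ≤ 1) :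
    kc * ((c : ℤ) * y) - c * psiG kc f3 f4 c0 m (c + y) ≤ ggG kc f3 f4 m (c + y) := by
  interval_cases c
  · simp only [Nat.cast_zero, zero_mul, sub_zero, zero_add, mul_zero]
    unfold ggG
    split_ifs with a b d
    · exact h3
    · exact h4
    · have : (5 : ℤ) ≤ y := by exact_mod_cast d
      have := mul_nonneg hkc (show (0 : ℤ) ≤ (y : ℤ) - 1 by linarith)
      linarith
    · exact le_refl _
  · rcases Nat.lt_or_ge y 5 with hy | hy
    · interval_cases y <;> simp [psiG, ggG] <;> linarith
    · unfold psiG ggG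
      rw [if_neg (by omega), if_neg (by omega), if_neg (by omega), if_neg (by omega),
        if_neg (by omega), if_neg (by omega), if_neg (by omega), if_pos (by omega)]
      push_cast
      linarith

theorem mainG (hkc : 1 ≤ kc) (h3 : 0 ≤ 3 * kc - f3) (h4 : 0 ≤ 3 * kc - f4 + f3) (hm : 0 ≤ m)
    (h5 : -m ≤ c0 - 5 * m - f4)
    (hloc : ∀ c y : ℕ, c ≤ 1 → 2 * (kc * ((c : ℤ) * y)) - A0 * ((y : ℤ) * ((y : ℤ) - 1)) ≤
      2 * phiG kc f3 f4 c0 m (c + y))
    (hs3 : ∀ R : ℤ, 5 ≤ R →
      A0 * (3 * (3 - 1)) + 2 * kc * (R + 3) < 2 * (c0 - m * R) + 2 * kc * R * 3 + 2)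
    (hsmall : ∀ k t2 t3 t4 : ℤ, 0 ≤ t2 → 0 ≤ t3 → 0 ≤ t4 → kc * t2 + f3 * t3 + f4 * t4 + 1 ≤ kc * k →
      k ≤ t2 + t3 → 7 + t4 ≤ t2 + t3 → 3 + t4 ≤ t2 → k * (k - 1) ≤ 2 * t2 + 6 * t3 + 12 * t4 → False)
    (hM : S_M) (hM3 : S_M3) (hH3 : S_H3) (hE : S_EG) (hN : S_NUMG kc f3 f4 c0 m A0) :
    ∀ (k : ℕ) (V : Type) [Fintype V]
    [LinearOrder V] (A : Arr V), Fintype.card V = k → 2 ≤ k → (∀ i < A.N, (A.B i).card + 3 ≤ k) →
    kc * (k : ℤ) ≤ ∑ i ∈ range A.N, phiG kc f3 f4 c0 m (A.B i).card := by
  intro k
  induction k with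
  | zero => intro V _ _ A _ h
            omega
  | succ k ih =>
    intro V _ _ A hk hk2 hB
    -- a point
    obtain ⟨x0, y0, hxy0⟩ : ∃ x y : V, x ≠ y := Fintype.exists_pair_of_one_lt_card (by omega)
    obtain ⟨i0, hi0, hx0, hy0⟩ := A.cross x0 y0 hxy0
    have hb0 : 2 ≤ (A.B i0).card := by
      have : ({x0, y0} : Finset V) ⊆ A.B i0 := by
        intro z hz
        rw [mem_insert, mem_singleton] at hz
        rcases hz with rfl | rfl <;> assumption
      have h2 := card_le_card this
      rwa [card_pair hxy0] at h2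
    have hk5 : 5 ≤ k + 1 := by
      have := hB i0 hi0
      omega
    -- the data of a point `P`
    have data : ∀ p < A.N, ∀ i < A.N, i ≠ p → (A.B i ∩ A.B p).card ≤ 1 := by
      intro p hp i hi hip
      rw [card_le_one]
      intro a ha b hb
      by_contra hab
      rw [mem_inter] at ha hb
      exact hip (A.uniq a b hab i hi p hp ha.1 hb.1 ha.2 hb.2)
    have hsplit : ∀ p i, (A.B i).card = (A.B i ∩ A.B p).card + (A.B i ∩ (univ \ A.B p)).card := by
      intro p i
      rw [← card_union_of_disjoint]
      · congr 1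
        ext x
        simp only [mem_union, mem_inter, mem_sdiff, mem_univ, true_and]
        tauto
      · rw [disjoint_left]
        intro x hx hx2
        rw [mem_inter] at hx hx2
        exact (mem_sdiff.1 hx2.2).2 hx.2
    have hYc : ∀ p, ((univ \ A.B p).card : ℤ) = (k + 1 : ℤ) - (A.B p).card := by
      intro p
      have h1 : (univ \ A.B p).card + (A.B p).card = (univ : Finset V).card :=
        card_sdiff_add_card_eq_card (subset_univ _)
      rw [card_univ, hk] at h1
      have h2 : (((univ \ A.B p).card + (A.B p).card : ℕ) : ℤ) = ((k + 1 : ℕ) : ℤ) := by rw [h1]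
      push_cast at h2
      linarith
    have hYp : ∀ p, (A.B p ∩ (univ \ A.B p)).card = 0 := by
      intro p
      rw [card_eq_zero]
      ext x
      simp only [mem_inter, mem_sdiff, mem_univ, true_and]
      tauto
    have hdis : ∀ p, Disjoint (A.B p) (univ \ A.B p) := fun p => disjoint_sdiff
    by_contra hcon
    have hcon' : ∑ i ∈ range A.N, phiG kc f3 f4 c0 m (A.B i).card + 1 ≤ kc * ((k : ℤ) + 1) := by
      push_cast at hcon
      linarith [not_le.1 hcon]
    -- the numbers
    have m1 := (hM V A (by omega)).1 (fun i hi => by have := hB i hi; omega)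
    have m2 := hM3 V A (by omega) (fun i hi => by have := hB i hi; omega)
    obtain ⟨T2, hT2⟩ : ∃ x : ℤ, x = ∑ i ∈ range A.N, (if (A.B i).card = 2 then (1 : ℤ) else 0) :=
      ⟨_, rfl⟩
    obtain ⟨T3, hT3⟩ : ∃ x : ℤ, x = ∑ i ∈ range A.N, (if (A.B i).card = 3 then (1 : ℤ) else 0) :=
      ⟨_, rfl⟩
    obtain ⟨T4, hT4⟩ : ∃ x : ℤ, x = ∑ i ∈ range A.N, (if (A.B i).card = 4 then (1 : ℤ) else 0) :=
      ⟨_, rfl⟩
    have hT40 : 0 ≤ T4 := by
      rw [hT4]; exact sum_nonneg fun i _ => by split_ifs <;> norm_num
    have hT0 : 0 ≤ TT A := sum_nonneg fun i _ => by split_ifs <;> norm_num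
    have hS0 : 0 ≤ SS A := sum_nonneg fun i _ => by split_ifs <;> omega
    have hPhi3 : ∑ i ∈ range A.N, phi3 (A.B i).card = T2 + T3 + 7 * TT A - 2 * SS A := by
      unfold TT SS
      rw [hT2, hT3, mul_sum, mul_sum, ← sum_add_distrib, ← sum_add_distrib, ← sum_sub_distrib]
      refine sum_congr rfl fun i _ => ?_
      unfold phi3
      split_ifs <;> omega
    have hU := hH3 V A (by omega) (fun i hi => by have := hB i hi; omega)
    rw [hPhi3, hk] at hU
    push_cast at hU
    have hPhi : ∑ i ∈ range A.N, phiG kc f3 f4 c0 m (A.B i).card =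
        kc * T2 + f3 * T3 + f4 * T4 + (c0 - m) * TT A - m * SS A := by
      unfold TT SS
      rw [hT2, hT3, hT4, mul_sum, mul_sum, mul_sum, mul_sum, mul_sum, ← sum_add_distrib,
        ← sum_add_distrib, ← sum_add_distrib, ← sum_sub_distrib]
      refine sum_congr rfl fun i _ => ?_
      generalize (A.B i).card = b
      rcases Nat.lt_or_ge b 5 with hb | hb
      · interval_cases b <;> simp [phiG]
      · unfold phiG
        rw [if_neg (by omega), if_neg (by omega), if_neg (by omega), if_neg (by omega),
          if_neg (by omega), if_neg (by omega), if_neg (by omega), if_pos hb, if_pos hb]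
        ring
    have q0 : (A.f0 : ℤ) = T2 + T3 + T4 + TT A := by
      unfold TT
      rw [hT2, hT3, hT4, F0_eq, ← sum_add_distrib, ← sum_add_distrib, ← sum_add_distrib]
      refine sum_congr rfl fun i _ => ?_
      split_ifs <;> omega
    have q1 : (A.f1 : ℤ) = 2 * T2 + 3 * T3 + 4 * T4 + SS A + TT A := by
      unfold TT SS
      rw [hT2, hT3, hT4, F1_eq, mul_sum, mul_sum, mul_sum, ← sum_add_distrib, ← sum_add_distrib,
        ← sum_add_distrib, ← sum_add_distrib]
      refine sum_congr rfl fun i _ => ?_
      split_ifs <;> omega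
    have q2 : (A.t2 : ℤ) = T2 := by rw [hT2, T2_eq]
    have m1' : (A.f1 : ℤ) + 3 ≤ 3 * A.f0 := by exact_mod_cast m1
    have m2' : 2 * (A.t2 : ℤ) + 2 * A.f1 + 7 ≤ 7 * A.f0 := by exact_mod_cast m2
    rw [q0, q1] at m1'
    rw [q0, q1, q2] at m2'
    rw [hPhi] at hcon'
    -- a point of maximal multiplicity
    obtain ⟨p, hp', hmax⟩ := exists_max_image (range A.N) (fun i => (A.B i).card)
      ⟨i0, mem_range.2 hi0⟩
    have hp := mem_range.1 hp'
    have e5 := pairs_off A univ
    have hT20 : 0 ≤ T2 := by
      rw [hT2]; exact sum_nonneg fun i _ => by split_ifs <;> norm_num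
    have hT30 : 0 ≤ T3 := by
      rw [hT3]; exact sum_nonneg fun i _ => by split_ifs <;> norm_num
    have pairs_lo : 2 * T2 + 6 * T3 + 12 * T4 + 10 * SS A - 20 * TT A ≤
        ∑ i ∈ range A.N, ((A.B i ∩ univ).card : ℤ) * (((A.B i ∩ univ).card : ℤ) - 1) := by
      unfold SS TT
      rw [hT2, hT3, hT4, mul_sum, mul_sum, mul_sum, mul_sum, mul_sum, ← sum_add_distrib,
        ← sum_add_distrib, ← sum_add_distrib, ← sum_sub_distrib]
      refine sum_le_sum fun i hi => ?_
      rw [inter_univ]
      generalize (A.B i).card = b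
      rcases Nat.lt_or_ge b 5 with h | h
      · interval_cases b <;> norm_num
      · rw [if_neg (by omega), if_neg (by omega), if_neg (by omega), if_pos h, if_pos h]
        rcases Nat.lt_or_ge b 6 with h6 | h6
        · have : b = 5 := by omega
          subst this
          norm_num
        · have h5 : (6 : ℤ) ≤ b := by exact_mod_cast h6
          nlinarith
    have lpairs : ∑ i ∈ range A.N, ((A.B i ∩ univ).card : ℤ) * (((A.B i ∩ univ).card : ℤ) - 1) ≤
        2 * T2 + 6 * T3 + 12 * T4 + (((A.B p).card : ℤ) + 4) * SS A -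
          4 * (((A.B p).card : ℤ) - 1) * TT A := by
      unfold SS TT
      rw [hT2, hT3, hT4, mul_sum, mul_sum, mul_sum, mul_sum, mul_sum, ← sum_add_distrib,
        ← sum_add_distrib, ← sum_add_distrib, ← sum_sub_distrib]
      refine sum_le_sum fun i hi => ?_
      rw [inter_univ]
      have hm' : (A.B i).card ≤ (A.B p).card := hmax i hi
      generalize (A.B i).card = b at hm'
      generalize (A.B p).card = R at hm'
      rcases Nat.lt_or_ge b 5 with h | h
      · interval_cases b <;> norm_num
      · rw [if_neg (by omega), if_neg (by omega), if_neg (by omega), if_pos h, if_pos h]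
        have h5 : (5 : ℤ) ≤ b := by exact_mod_cast h
        have hR : (b : ℤ) ≤ R := by exact_mod_cast hm'
        have h6 : 0 ≤ ((R : ℤ) - b) * ((b : ℤ) - 5) := mul_nonneg (by linarith) (by linarith)
        linarith
    rw [e5, card_univ, hk] at lpairs pairs_lo
    push_cast at lpairs pairs_lo
    by_cases hp5 : 5 ≤ (A.B p).card
    · -- a point of multiplicity at least 5
      obtain ⟨Y, hY⟩ : ∃ Y, Y = univ \ A.B p := ⟨_, rfl⟩
      have e1 := pairs_prod A (A.B p) Y (by rw [hY]; exact hdis p)
      have e2 := pairs_off A Y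
      have hz : (A.B p ∩ Y).card = 0 := by rw [hY]; exact hYp p
      rw [← add_sum_erase _ _ hp'] at e1 e2
      rw [hz] at e1 e2
      simp only [Nat.cast_zero, mul_zero, zero_mul, zero_add] at e1 e2
      have hsY : (Y.card : ℤ) = (k + 1 : ℤ) - (A.B p).card := by rw [hY]; exact hYc p
      have hR5 : (5 : ℤ) ≤ (A.B p).card := by exact_mod_cast hp5
      have hs3' : (3 : ℤ) ≤ Y.card := by
        have h1 := hB p hp
        have h2 : (((A.B p).card + 3 : ℕ) : ℤ) ≤ ((k + 1 : ℕ) : ℤ) := by exact_mod_cast h1
        push_cast at h2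
        linarith
      -- direct count
      have dc : 2 * kc * ((A.B p).card : ℤ) * Y.card - A0 * ((Y.card : ℤ) * ((Y.card : ℤ) - 1)) ≤
          2 * ∑ i ∈ (range A.N).erase p, phiG kc f3 f4 c0 m (A.B i).card := by
        have h5 : ∑ i ∈ (range A.N).erase p, (2 * (kc * (((A.B i ∩ A.B p).card : ℤ) * (A.B i ∩ Y).card)) -
          A0 * (((A.B i ∩ Y).card : ℤ) * (((A.B i ∩ Y).card : ℤ) - 1))) ≤
          ∑ i ∈ (range A.N).erase p, 2 * phiG kc f3 f4 c0 m (A.B i).card := by
          refine sum_le_sum fun i hi => ?_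
          obtain ⟨h6, h7⟩ := mem_erase.1 hi
          rw [hsplit p i, ← hY]
          exact hloc _ _ (data p hp i (mem_range.1 h7) h6)
        rw [sum_sub_distrib, ← mul_sum, ← mul_sum, ← mul_sum, ← mul_sum, e1, e2] at h5
        linarith
      have hphip : phiG kc f3 f4 c0 m (A.B p).card = c0 - m * ((A.B p).card : ℤ) := by
        unfold phiG
        rw [if_neg (by omega), if_neg (by omega), if_neg (by omega), if_neg (by omega)]
      have hsum : ∑ i ∈ range A.N, phiG kc f3 f4 c0 m (A.B i).card =
          phiG kc f3 f4 c0 m (A.B p).card +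
            ∑ i ∈ (range A.N).erase p, phiG kc f3 f4 c0 m (A.B i).card :=
        (add_sum_erase _ _ hp').symm
      obtain ⟨R, hR⟩ : ∃ R : ℤ, R = ((A.B p).card : ℤ) := ⟨_, rfl⟩
      obtain ⟨s, hs⟩ : ∃ s : ℤ, s = (Y.card : ℤ) := ⟨_, rfl⟩
      rw [← hR] at dc hphip hR5 hsY e1 lpairs
      rw [← hs] at dc hs3' hsY e1
      have hD : 2 * (c0 - m * R) + 2 * kc * R * s + 2 ≤ A0 * (s * (s - 1)) +
          2 * kc * ((k : ℤ) + 1) := by
        rw [hPhi, hphip] at hsum
        linarith
      have hs4 : 4 ≤ s := by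
        by_contra h
        have h' : s = 3 := by omega
        have h6 := hs3 R hR5
        rw [h'] at hD hsY
        have h7 : (k : ℤ) + 1 = R + 3 := by linarith
        rw [h7] at hD
        linarith
      -- deletion
      have hB4 : ∀ i < A.N, (A.B i).card + 4 ≤ k + 1 := by
        intro i hi
        have h1 : (A.B i).card ≤ (A.B p).card := hmax i (mem_range.2 hi)
        have h2 : ((A.B i).card : ℤ) ≤ R := by rw [hR]; exact_mod_cast h1
        have h3 : (((A.B i).card + 4 : ℕ) : ℤ) ≤ ((k + 1 : ℕ) : ℤ) := by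
          push_cast
          linarith
        exact_mod_cast h3
      have hcard : ∀ l : V, Fintype.card {x : V // x ≠ l} = k := by
        intro l
        have h1 : Fintype.card {x : V // x ≠ l} = Fintype.card V - 1 := by
          simp [Fintype.card_subtype_compl]
        rw [h1, hk]
        omega
      have h1 : ∀ l : V, ∑ i ∈ range A.N,
          (if l ∈ A.B i then psiG kc f3 f4 c0 m (A.B i).card else 0) ≤ kc - 1 := by
        intro l
        rw [← PhiG_del]
        have h2 := ih {x : V // x ≠ l} (del A l) (hcard l) (by omega) (by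
          intro i hi
          have h3 := hB4 i hi
          have h4 := card_del A l i
          have h5 : ((del A l).B i).card ≤ (A.B i).card := by
            rw [h4]
            exact Nat.sub_le _ _
          omega)
        linarith
      have h1P : ∀ P : Finset V,
          ∑ i ∈ range A.N, ((A.B i ∩ P).card : ℤ) * psiG kc f3 f4 c0 m (A.B i).card ≤
            P.card * (kc - 1) := by
        intro P
        rw [← sum_psiG]
        refine (sum_le_sum fun l _ => h1 l).trans ?_
        rw [sum_const, nsmul_eq_mul]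
      have e3 := h1P (A.B p)
      rw [← add_sum_erase _ _ hp', inter_self, ← hR] at e3
      have e3' : R * (-m) ≤ R * psiG kc f3 f4 c0 m (A.B p).card :=
        mul_le_mul_of_nonneg_left (psiG_ge kc f3 f4 c0 m h5 _ hp5) (by linarith)
      have la : ∑ i ∈ (range A.N).erase p,
          (kc * (((A.B i ∩ A.B p).card : ℤ) * (A.B i ∩ Y).card) -
            ((A.B i ∩ A.B p).card : ℤ) * psiG kc f3 f4 c0 m (A.B i).card) ≤
          ∑ i ∈ (range A.N).erase p, ggG kc f3 f4 m (A.B i).card := by
        refine sum_le_sum fun i hi => ?_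
        obtain ⟨h6, h7⟩ := mem_erase.1 hi
        have := loc_aG kc f3 f4 c0 m (by linarith) h3 h4 hm h5 _ (A.B i ∩ Y).card
          (data p hp i (mem_range.1 h7) h6)
        rw [hY, ← hsplit p i, ← hY] at this
        exact this
      rw [sum_sub_distrib, ← mul_sum, e1] at la
      have lt : ∑ i ∈ range A.N, ggG kc f3 f4 m (A.B i).card =
          (3 * kc - f3) * T3 + (3 * kc - f4 + f3) * T4 + kc * SS A + m * TT A := by
        unfold SS TT
        rw [hT3, hT4, mul_sum, mul_sum, mul_sum, mul_sum, ← sum_add_distrib, ← sum_add_distrib,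
          ← sum_add_distrib]
        refine sum_congr rfl fun i _ => ?_
        generalize (A.B i).card = b
        rcases Nat.lt_or_ge b 5 with hb | hb
        · interval_cases b <;> simp [ggG]
        · unfold ggG
          rw [if_neg (by omega), if_neg (by omega), if_pos hb, if_neg (by omega),
            if_neg (by omega), if_pos hb, if_pos hb]
          ring
      have hggp : ggG kc f3 f4 m (A.B p).card = kc * (R - 1) + m := by
        unfold ggG
        rw [if_neg (by omega), if_neg (by omega), if_pos hp5, hR]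
      rw [← add_sum_erase _ _ hp', hggp] at lt
      have hST : SS A ≤ TT A * (R - 1) := by
        unfold SS TT
        rw [sum_mul]
        refine sum_le_sum fun i hi => ?_
        have h1 : (A.B i).card ≤ (A.B p).card := hmax i hi
        have h2 : ((A.B i).card : ℤ) ≤ R := by rw [hR]; exact_mod_cast h1
        split_ifs <;> linarith
      have hST4 : 4 * TT A ≤ SS A := by
        unfold SS TT
        rw [mul_sum]
        refine sum_le_sum fun i hi => ?_
        split_ifs <;> omega
      have hT1 : 1 ≤ TT A := by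
        unfold TT
        rw [← add_sum_erase _ _ hp', if_pos hp5]
        have : 0 ≤ ∑ x ∈ (range A.N).erase p, (if 5 ≤ (A.B x).card then (1 : ℤ) else 0) :=
          sum_nonneg fun i _ => by split_ifs <;> norm_num
        linarith
      have hPS : 2 * kc * T2 + 3 * (f3 - kc) * T3 + 4 * (f4 - f3) * T4 - m * (SS A + TT A) ≤
          ∑ i ∈ range A.N, ((A.B i ∩ univ).card : ℤ) * psiG kc f3 f4 c0 m (A.B i).card := by
        unfold SS TT
        rw [hT2, hT3, hT4, ← sum_add_distrib, mul_sum, mul_sum, mul_sum, mul_sum,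
          ← sum_add_distrib, ← sum_add_distrib, ← sum_sub_distrib]
        refine sum_le_sum fun i hi => ?_
        rw [inter_univ]
        generalize (A.B i).card = b
        rcases Nat.lt_or_ge b 5 with hb | hb
        · interval_cases b <;> simp [psiG]
        · rw [if_neg (by omega), if_neg (by omega), if_neg (by omega), if_pos hb, if_pos hb]
          have hb5 : (0 : ℤ) ≤ b := by positivity
          have := mul_le_mul_of_nonneg_left (psiG_ge kc f3 f4 c0 m h5 b hb) hb5
          linarith
      have hPS2 := h1P univ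
      rw [card_univ, hk] at hPS2
      push_cast at hPS2
      have hE5 := hE V A 5
      have hE4 := hE V A 4
      have i5 : ∑ i ∈ range A.N, (if 5 ≤ (A.B i).card then ((A.B i).card : ℤ) else 0) =
          SS A + TT A := by
        unfold SS TT
        rw [← sum_add_distrib]
        refine sum_congr rfl fun i _ => ?_
        split_ifs <;> ring
      have i4 : ∑ i ∈ range A.N, (if 4 ≤ (A.B i).card then ((A.B i).card : ℤ) else 0) =
          SS A + TT A + 4 * T4 := by
        unfold SS TT
        rw [hT4, mul_sum, ← sum_add_distrib, ← sum_add_distrib]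
        refine sum_congr rfl fun i _ => ?_
        split_ifs <;> omega
      have j4 : ∑ i ∈ range A.N, (if 4 ≤ (A.B i).card then (1 : ℤ) else 0) = TT A + T4 := by
        unfold TT
        rw [hT4, ← sum_add_distrib]
        refine sum_congr rfl fun i _ => ?_
        split_ifs <;> omega
      have j5 : ∑ i ∈ range A.N, (if 5 ≤ (A.B i).card then (1 : ℤ) else 0) = TT A := rfl
      rw [i5, j5, hk] at hE5
      rw [i4, j4, hk] at hE4
      push_cast at hE5 hE4
      generalize TT A = T at *
      generalize SS A = S at *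
      have hse : s = (k : ℤ) + 1 - R := hsY
      rw [hse] at la hD
      clear dc hcon hB hmax data hsplit hYc hYp hdis h1P h1 hcard hB4 ih e2 e5 hsum hPhi q0 q1 q2
        hPhi3
      refine hN ((k : ℤ) + 1) R T2 T3 T4 S T hR5 (by linarith) hT20 hT30 hT40 hT1 hST4 hST
        ?_ ?_ ?_ ?_ ?_ ?_ ?_ ?_ ?_ ?_ ?_
      · linarith
      · linarith
      · linarith
      · linarith
      · linarith
      · linarith
      · have e9 : kc * R * ((k : ℤ) + 1 - R) = kc * (R * ((k : ℤ) + 1 - R)) := by ring
        rw [e9]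
        linarith
      · linarith
      · intro c
        exact hE5 c (by norm_num)
      · intro c
        exact hE4 c (by norm_num)
      · linarith
    · -- all multiplicities at most 4
      have hT : TT A = 0 := by
        unfold TT
        refine sum_eq_zero fun i hi => ?_
        have h1 : (A.B i).card ≤ (A.B p).card := hmax i hi
        rw [if_neg (by omega)]
      have hS : SS A = 0 := by
        unfold SS
        refine sum_eq_zero fun i hi => ?_
        have h1 : (A.B i).card ≤ (A.B p).card := hmax i hi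
        rw [if_neg (by omega)]
      rw [hT, hS] at hcon'
      rw [hT, hS] at m1' m2' hU
      rw [hT, hS] at lpairs
      refine hsmall ((k : ℤ) + 1) T2 T3 T4 hT20 hT30 hT40 (by linarith) (by linarith) (by linarith)
        (by linarith) (by linarith)

end G

end K9h70.PZ
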